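import Mathlib

/-!
# The generalized Tate conjecture for abelian varieties over finite fields: definitions

`V` is the rational Tate module of an abelian variety `A` over the field with `q` elements, with
coefficients in an algebraically closed field `k` (for instance an algebraic closure of `ℚ_ℓ`), and
`F` is the Frobenius endomorphism. The cohomology group `H^i(A)` is the space of the alternating forms
on `V` in `i` variables, and the geometric Frobenius acts on it by `f ↦ f ∘ F`. The Tate module of
the product of the powers `A j ^ n j` is the space `∀ j, Fin (n j) → V j`.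
-/

set_option autoImplicit false

namespace Pool.Agent.W2helper27.GT

open Module Polynomial

/-- `P` is the characteristic polynomial of Frobenius of an ordinary abelian variety of dimension `g`
over the field with `p ^ a` elements: monic with integral coefficients, of degree `2 g`, the complex
roots have the absolute value `p ^ (a / 2)`, and the middle coefficient is prime to `p`. -/
structure IsOrdinaryWeil (p a g : ℕ) (P : ℤ[X]) : Prop where
  monic : P.Monic
  deg : P.natDegree = 2 * g
  weil : ∀ z : ℂ, (P.map (Int.castRingHom ℂ)).IsRoot z → ‖z‖ ^ 2 = (p : ℝ) ^ a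
  ord : ¬ (p : ℤ) ∣ P.coeff g

section

variable {k V W : Type} [Field k] [AddCommGroup V] [Module k V] [AddCommGroup W] [Module k W]

/-- `F` is the Frobenius endomorphism of the Tate module of an ordinary abelian variety of dimension
`g` over the field with `p ^ a` elements, with characteristic polynomial `P`: it is semisimple (theorem
of Weil), and `P` is the polynomial of an ordinary abelian variety. -/
structure IsOrdinaryFrobenius (p a g : ℕ) (P : ℤ[X]) (F : Module.End k V) [FiniteDimensional k V] :
    Prop where
  semisimple : F.IsSemisimple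
  charpoly : F.charpoly = P.map (Int.castRingHom k)
  ordinary : IsOrdinaryWeil p a g P

/-- The slopes of the polynomials `P j` are independent: if `e j` are embeddings of the algebraic
numbers into an algebraic closure of `ℚ_p`, then there is one embedding `e'` such that for all `j` the
roots of `P j` which become units for `e'` are those which become units for `e j`. This is the case if
the splitting fields of the polynomials `P j` are linearly disjoint over `ℚ`. -/
def IndependentSlopes (p : ℕ) [Fact p.Prime] {J : Type} (P : J → ℤ[X]) : Prop :=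
  ∀ e : J → (AlgebraicClosure ℚ →+* PadicAlgCl p), ∃ e' : AlgebraicClosure ℚ →+* PadicAlgCl p,
    ∀ j, ∀ z : AlgebraicClosure ℚ, ((P j).map (Int.castRingHom (AlgebraicClosure ℚ))).IsRoot z →
      (‖e' z‖ = 1 ↔ ‖e j z‖ = 1)

/-- The Frobenius endomorphism of the product of the powers `A j ^ n j`. -/
def frob {J : Type} {V : J → Type} [∀ j, AddCommGroup (V j)] [∀ j, Module k (V j)]
    (F : ∀ j, Module.End k (V j)) (n : J → ℕ) : Module.End k (∀ j, Fin (n j) → V j) where
  toFun v := fun j x => F j (v j x)
  map_add' v w := by
    funext j x
    exact map_add (F j) _ _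
  map_smul' c v := by
    funext j x
    exact map_smul (F j) _ _

/-- `U` is a subspace of the space `H^i` of the forms in `i` variables which is stable under
Frobenius, and its twist `U(c)` is effective of weight `i - 2 c`: for all eigenvalues `β` of Frobenius
on `U` the numbers `β / q ^ c` and `q ^ (i - c) / β` are algebraic integers. -/
def IsEffective (q : ℕ) (G : Module.End k W) (i c : ℕ) (U : Submodule k (W [⋀^Fin i]→ₗ[k] k)) :
    Prop :=
  (∀ f ∈ U, f.compLinearMap G ∈ U) ∧
    ∀ (β : k), ∀ f ∈ U, f ≠ 0 → f.compLinearMap G = β • f →
      IsIntegral ℤ (β / (q : k) ^ c) ∧ IsIntegral ℤ ((q : k) ^ i / ((q : k) ^ c * β))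

/-- The generalized Tate conjecture for an abelian variety with the Frobenius endomorphism `G`, if
`N t c` is the space of the classes in `H^t` of geometric coniveau at least `c`: every Frobenius
stable subspace `U` of `H^t` with `U(c)` effective is contained in `N t c`. -/
def GTC (q : ℕ) (G : Module.End k W) (N : ∀ t : ℕ, ℕ → Submodule k (W [⋀^Fin t]→ₗ[k] k)) : Prop :=
  ∀ (t c : ℕ) (U : Submodule k (W [⋀^Fin t]→ₗ[k] k)), IsEffective q G t c U → U ≤ N t c

/-- The classes in `H^i(B)` (`H` is the Frobenius endomorphism of `B`) which are products of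
pull-backs of classes `φ b` in `N (t b) (c b)` on the varieties `A (j b)`, where `∑ b, c b ≥ ν`, by
homomorphisms `h b` from `B` to `A (j b)` (with coefficients in `k`: by the theorem of Tate these are
the linear maps between the Tate modules that commute with Frobenius). -/
def products {J : Type} {W : J → Type} [∀ j, AddCommGroup (W j)] [∀ j, Module k (W j)]
    (G : ∀ j, Module.End k (W j))
    (N : ∀ j, ∀ t : ℕ, ℕ → Submodule k (W j [⋀^Fin t]→ₗ[k] k))
    (H : Module.End k V) (i ν : ℕ) : Set (V [⋀^Fin i]→ₗ[k] k) :=
  {f | ∃ (r : ℕ) (j : Fin r → J) (t c : Fin r → ℕ) (e : (Σ b, Fin (t b)) ≃ Fin i)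
    (h : ∀ b, V →ₗ[k] W (j b)) (φ : ∀ b, W (j b) [⋀^Fin (t b)]→ₗ[k] k),
    ν ≤ ∑ b, c b ∧ (∀ b v, h b (H v) = G (j b) (h b v)) ∧ (∀ b, φ b ∈ N (j b) (t b) (c b)) ∧
    ∀ v : Fin i → V, f v = ∑ σ : Equiv.Perm (Fin i), ((Equiv.Perm.sign σ : ℤ) : k) *
      ∏ b, φ b (fun l => h b (v (σ (e ⟨b, l⟩))))}

end

end Pool.Agent.W2helper27.GT
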