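import Pool.Agent.W2helper27.GT.Part
import Pool.Agent.W2helper27.GT.Setup
import Pool.Agent.R940.Kron

/-!
# The eigenvalues of an ordinary Frobenius element

Let `P` be the characteristic polynomial of Frobenius of an ordinary abelian variety of dimension `g`
over the field with `p ^ a` elements. We label the roots of `P`, such that `swap` is the complex
conjugation, and attach to every embedding of the algebraic numbers into the algebraic closure of
`ℚ_p` the set of the labels of the roots that are not units.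
-/

set_option autoImplicit false
set_option linter.unusedSectionVars false

namespace Pool.Agent.W2helper27.GT

open Polynomial Finset

/-- The algebraic numbers. -/
abbrev Qb : Type := AlgebraicClosure ℚ

lemma algebraic_Qb (z : Qb) : IsAlgebraic ℚ z := by
  have h : @Algebra.IsAlgebraic ℚ (AlgebraicClosure ℚ) _ _ (AlgebraicClosure.instAlgebra ℚ) :=
    AlgebraicClosure.isAlgebraic ℚ
  have e : (AlgebraicClosure.instAlgebra ℚ : Algebra ℚ (AlgebraicClosure ℚ)) =
    DivisionRing.toRatAlgebra := Subsingleton.elim _ _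
  rw [e] at h
  exact h.isAlgebraic z

/-- Two embeddings differ by an endomorphism. -/
lemma exists_conj {M : Type*} [Field M] [CharZero M] (e e' : Qb →+* M) :
    ∃ τ : Qb →+* Qb, ∀ z, e' z = e (τ z) := by
  have key : ∀ z, ∃ w, e w = e' z := by
    intro z
    have hz : IsIntegral ℚ z := (algebraic_Qb z).isIntegral
    let f := minpoly ℚ z
    have hf : (f.map (algebraMap ℚ Qb)).Splits := IsAlgClosed.splits _
    have h0 : aeval z f = 0 := minpoly.aeval ℚ z
    have h1 : (f.map (algebraMap ℚ M)).IsRoot (e' z) := by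
      have h2 : algebraMap ℚ M = e'.comp (algebraMap ℚ Qb) := RingHom.ext_rat _ _
      rw [IsRoot.def, eval_map, h2, ← hom_eval₂, ← aeval_def, h0, map_zero]
    have h2 : f.map (algebraMap ℚ M) = (f.map (algebraMap ℚ Qb)).map e := by
      rw [Polynomial.map_map]
      congr 1
      exact RingHom.ext_rat _ _
    have hne : f.map (algebraMap ℚ M) ≠ 0 := (minpoly.monic hz).map _ |>.ne_zero
    have h3 : e' z ∈ (f.map (algebraMap ℚ M)).roots := (mem_roots hne).2 h1
    rw [h2, hf.roots_map, Multiset.mem_map] at h3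
    obtain ⟨w, -, hw⟩ := h3
    exact ⟨w, hw⟩
  choose t ht using key
  refine ⟨{ toFun := t, map_one' := ?_, map_mul' := ?_, map_zero' := ?_, map_add' := ?_ },
    fun z => (ht z).symm⟩
  · apply e.injective; rw [ht, map_one, map_one]
  · intro x y; apply e.injective; rw [ht, map_mul, map_mul, ht, ht]
  · apply e.injective; rw [ht, map_zero, map_zero]
  · intro x y; apply e.injective; rw [ht, map_add, map_add, ht, ht]

lemma exists_emb (M : Type*) [Field M] [CharZero M] [IsAlgClosed M] : Nonempty (Qb →+* M) := by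
  have : Algebra.IsAlgebraic ℚ Qb := ⟨algebraic_Qb⟩
  exact ⟨(IsAlgClosed.lift (R := ℚ) (S := Qb) (M := M)).toRingHom⟩

/-- Few roots are not units. -/
theorem card_nonunit_le {p : ℕ} [hp : Fact p.Prime] {κ : Type} [Fintype κ] [DecidableEq κ]
    (α : κ → Qb) (P : ℤ[X]) (hP : P.map (Int.castRingHom Qb) = ∏ x, (X - C (α x))) {n : ℕ}
    (hc : ¬ (p : ℤ) ∣ P.coeff n) (e : Qb →+* PadicAlgCl p) :
    (Finset.univ.filter fun x => ‖e (α x)‖ ≠ 1).card ≤ n := by
  classical
  have hmon : P.Monic := by
    refine Polynomial.monic_of_injective (RingHom.injective_int (Int.castRingHom Qb)) ?_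
    rw [hP]
    exact monic_prod_of_monic _ _ fun x _ => monic_X_sub_C _
  have hint : ∀ x, ‖e (α x)‖ ≤ 1 := by
    intro x
    apply Pool.Agent.R940.padic_integral
    refine ⟨P, hmon, ?_⟩
    have h1 : algebraMap ℤ (PadicAlgCl p) = e.comp (Int.castRingHom Qb) :=
      RingHom.ext_int _ _
    rw [h1, ← hom_eval₂, ← eval_map, hP, eval_prod,
      Finset.prod_eq_zero (Finset.mem_univ x) (by simp), map_zero]
  by_contra hcon
  push Not at hcon
  -- the polynomial over the `p`-adic numbers
  have hPe : P.map (Int.castRingHom (PadicAlgCl p)) = ∏ x, (X - C (e (α x))) := by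
    have h1 : Int.castRingHom (PadicAlgCl p) = e.comp (Int.castRingHom Qb) :=
      RingHom.ext_int _ _
    rw [h1, ← Polynomial.map_map, hP, Polynomial.map_prod]
    simp
  -- the coefficient is a sum of products
  have hcoef : (((P.coeff n : ℤ)) : PadicAlgCl p) = ∑ s ∈ (Finset.univ : Finset κ).powerset with
      s.card = Fintype.card κ - n, ∏ x ∈ s, (-(e (α x))) := by
    have h2 : (P.map (Int.castRingHom (PadicAlgCl p))).coeff n =
        ((P.coeff n : ℤ) : PadicAlgCl p) := by
      rw [coeff_map]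
      rfl
    rw [← h2, hPe]
    have hn : n ≤ (Finset.univ : Finset κ).card := by
      refine le_trans hcon.le (Finset.card_le_card (Finset.filter_subset _ _))
    have h3 := Multiset.prod_X_sub_C_coeff ((Finset.univ : Finset κ).val.map fun x => e (α x))
      (k := n) (by rw [Multiset.card_map]; exact hn)
    have h4 : (Multiset.map (fun t => X - C t) ((Finset.univ : Finset κ).val.map
        fun x => e (α x))).prod = ∏ x, (X - C (e (α x))) := by
      rw [Multiset.map_map]
      rfl
    rw [h4] at h3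
    rw [h3, Multiset.card_map]
    rw [show (Finset.univ : Finset κ).val.card = Fintype.card κ from rfl]
    rw [Multiset.esymm, Multiset.powersetCard_map, Multiset.map_map]
    have h5 : ((Finset.univ : Finset κ).powerset.filter fun s => s.card = Fintype.card κ - n) =
        (Finset.univ : Finset κ).powersetCard (Fintype.card κ - n) := by
      rw [Finset.powersetCard_eq_filter]
    rw [h5]
    have h6 : ∀ s ∈ (Finset.univ : Finset κ).powersetCard (Fintype.card κ - n),
        ∏ x ∈ s, (-(e (α x))) = (-1) ^ (Fintype.card κ - n) * ∏ x ∈ s, e (α x) := by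
      intro s hs
      rw [Finset.prod_neg, (Finset.mem_powersetCard.1 hs).2]
    rw [Finset.sum_congr rfl h6, ← Finset.mul_sum]
    congr 1
    rw [Finset.sum, ← Finset.map_val_val_powersetCard, Multiset.map_map]
    rfl
  have hlt : ∀ s : Finset κ, s.card = Fintype.card κ - n → ‖∏ x ∈ s, (-(e (α x)))‖ < 1 := by
    intro s hs
    obtain ⟨x, hx, hx1⟩ : ∃ x ∈ s, ‖e (α x)‖ ≠ 1 := by
      by_contra h1
      push Not at h1
      have h2 : s ⊆ (Finset.univ.filter fun x => ‖e (α x)‖ ≠ 1)ᶜ := by
        intro x hx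
        rw [Finset.mem_compl, Finset.mem_filter]
        push Not
        exact fun _ => h1 x hx
      have h3 := Finset.card_le_card h2
      rw [Finset.card_compl, hs] at h3
      have h4 : (Finset.univ.filter fun x => ‖e (α x)‖ ≠ 1).card ≤ Fintype.card κ :=
        Finset.card_le_univ _
      omega
    rw [← Finset.mul_prod_erase s _ hx, norm_mul, norm_neg]
    have h2 : ‖∏ x ∈ s.erase x, (-(e (α x)))‖ ≤ 1 := by
      rw [norm_prod]
      refine Finset.prod_le_one (fun _ _ => norm_nonneg _) fun y _ => ?_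
      rw [norm_neg]
      exact hint y
    have h3 : ‖e (α x)‖ < 1 := lt_of_le_of_ne (hint x) hx1
    calc ‖e (α x)‖ * ‖∏ x ∈ s.erase x, (-(e (α x)))‖ ≤ ‖e (α x)‖ * 1 :=
          mul_le_mul_of_nonneg_left h2 (norm_nonneg _)
      _ < 1 := by rw [mul_one]; exact h3
  have hsum : ∀ S : Finset (Finset κ), (∀ s ∈ S, s.card = Fintype.card κ - n) →
      ‖∑ s ∈ S, ∏ x ∈ s, (-(e (α x)))‖ < 1 := by
    intro S
    induction S using Finset.induction_on with
    | empty => intro _; simp
    | insert a S ha ih =>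
      intro h
      rw [Finset.sum_insert ha]
      refine lt_of_le_of_lt (Pool.Agent.R940.padic_add_le _ _) (max_lt ?_ ?_)
      · exact hlt a (h a (Finset.mem_insert_self a S))
      · exact ih fun s hs => h s (Finset.mem_insert_of_mem hs)
  have h1 : ‖((P.coeff n : ℤ) : PadicAlgCl p)‖ < 1 := by
    rw [hcoef]
    exact hsum _ fun s hs => (Finset.mem_filter.1 hs).2
  have h2 : (((P.coeff n : ℤ) : ℚ_[p]) : PadicAlgCl p) = ((P.coeff n : ℤ) : PadicAlgCl p) :=
    map_intCast (algebraMap ℚ_[p] (PadicAlgCl p)) _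
  rw [← h2, PadicAlgCl.norm_extends, Padic.norm_intCast_lt_one_iff] at h1
  exact hc h1

section

variable {p a g : ℕ} [hp : Fact p.Prime]

lemma norm_q_lt (ha : 0 < a) : ‖((p : PadicAlgCl p) ^ a)‖ < 1 := by
  have h : ((p : ℚ_[p]) : PadicAlgCl p) = (p : PadicAlgCl p) :=
    map_natCast (algebraMap ℚ_[p] (PadicAlgCl p)) p
  rw [norm_pow, ← h, PadicAlgCl.norm_extends, Padic.norm_p]
  exact pow_lt_one₀ (by positivity) (inv_lt_one_of_one_lt₀ (by exact_mod_cast hp.out.one_lt))
    ha.ne'

lemma q_ne : ((p : Qb) ^ a) ≠ 0 := pow_ne_zero _ (Nat.cast_ne_zero.2 hp.out.ne_zero)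

/-- The roots of `P`. -/
noncomputable def rts (P : ℤ[X]) : Multiset Qb := (P.map (Int.castRingHom Qb)).roots

variable {P : ℤ[X]}

lemma splits_Qb (P : ℤ[X]) : (P.map (Int.castRingHom Qb)).Splits := IsAlgClosed.splits _

lemma rts_map (P : ℤ[X]) {M : Type*} [Field M] (e : Qb →+* M) :
    (rts P).map e = (P.map (Int.castRingHom M)).roots := by
  rw [rts, ← (splits_Qb P).roots_map, Polynomial.map_map]
  congr 2
  exact RingHom.ext_int _ _

lemma rts_map_self (P : ℤ[X]) (τ : Qb →+* Qb) : (rts P).map τ = rts P := rts_map P τ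

lemma mul_conj (hP : IsOrdinaryWeil p a g P) {z : ℂ}
    (hz : z ∈ (P.map (Int.castRingHom ℂ)).roots) : z * (starRingEnd ℂ) z = (p : ℂ) ^ a := by
  have h1 := hP.weil z (isRoot_of_mem_roots hz)
  rw [Complex.mul_conj, Complex.normSq_eq_norm_sq, h1]
  push_cast
  rfl

/-- The complex conjugation on the algebraic numbers. -/
lemma exists_cc (hP : IsOrdinaryWeil p a g P) : ∃ τ : Qb →+* Qb, ∀ z ∈ rts P,
    τ z = (p : Qb) ^ a / z := by
  obtain ⟨φ⟩ := exists_emb ℂ
  obtain ⟨τ, hτ⟩ := exists_conj φ ((starRingEnd ℂ).comp φ)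
  refine ⟨τ, fun z hz => ?_⟩
  have h1 : φ z ∈ (P.map (Int.castRingHom ℂ)).roots := by
    rw [← rts_map P φ]
    exact Multiset.mem_map_of_mem φ hz
  have h2 := mul_conj hP h1
  have h3 : (starRingEnd ℂ) (φ z) = φ (τ z) := hτ z
  rw [h3, ← map_mul] at h2
  have h4 : z * τ z = (p : Qb) ^ a := by
    apply φ.injective
    rw [h2, map_pow, map_natCast]
  have hz0 : z ≠ 0 := by
    rintro rfl
    rw [zero_mul] at h4
    exact q_ne h4.symm
  rw [eq_div_iff hz0, mul_comm]
  exact h4

lemma rts_ne (hP : IsOrdinaryWeil p a g P) {z : Qb} (hz : z ∈ rts P) : z ≠ 0 := by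
  obtain ⟨φ⟩ := exists_emb ℂ
  have h1 : φ z ∈ (P.map (Int.castRingHom ℂ)).roots := by
    rw [← rts_map P φ]
    exact Multiset.mem_map_of_mem φ hz
  have h2 := mul_conj hP h1
  rintro rfl
  rw [map_zero, zero_mul] at h2
  have h3 : ((p : ℂ) ^ a) ≠ 0 := pow_ne_zero _ (Nat.cast_ne_zero.2 hp.out.ne_zero)
  exact h3 h2.symm

lemma rts_inv (hP : IsOrdinaryWeil p a g P) :
    (rts P).map (fun z => (p : Qb) ^ a / z) = rts P := by
  obtain ⟨τ, hτ⟩ := exists_cc hP
  conv_rhs => rw [← rts_map_self P τ]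
  exact Multiset.map_congr rfl fun z hz => (hτ z hz).symm

lemma rts_card (hP : IsOrdinaryWeil p a g P) : (rts P).card = 2 * g := by
  rw [rts, ← hP.deg, ← hP.monic.natDegree_map (Int.castRingHom Qb)]
  exact (splits_Qb P).natDegree_eq_card_roots.symm

lemma prod_rts (hP : IsOrdinaryWeil p a g P) :
    P.map (Int.castRingHom Qb) = ((rts P).map fun z => X - C z).prod :=
  (splits_Qb P).eq_prod_roots_of_monic (hP.monic.map _)

/-- A labelling of a multiset. -/
lemma exists_enum {β : Type*} (U : Multiset β) {n : ℕ} (h : U.card = n) :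
    ∃ u : Fin n → β, (Finset.univ : Finset (Fin n)).val.map u = U := by
  subst h
  induction U using Quotient.inductionOn with
  | h l =>
    refine ⟨fun i => l.get i, ?_⟩
    rw [Fin.univ_val_map]
    change ((List.ofFn l.get : List β) : Multiset β) = (l : Multiset β)
    rw [List.ofFn_get]

lemma norm_rts_le (hP : IsOrdinaryWeil p a g P) (e : Qb →+* PadicAlgCl p) {z : Qb}
    (hz : z ∈ rts P) : ‖e z‖ ≤ 1 := by
  apply Pool.Agent.R940.padic_integral
  refine ⟨P, hP.monic, ?_⟩
  have h1 : algebraMap ℤ (PadicAlgCl p) = e.comp (Int.castRingHom Qb) := RingHom.ext_int _ _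
  have h2 := isRoot_of_mem_roots hz
  rw [IsRoot.def, eval_map] at h2
  rw [h1, ← hom_eval₂, h2, map_zero]

/-- The labelled roots. -/
theorem exists_labels (hP : IsOrdinaryWeil p a g P) (ha : 0 < a) :
    ∃ α : Fin g ⊕ Fin g → Qb, (Finset.univ : Finset (Fin g ⊕ Fin g)).val.map α = rts P ∧
      ∀ x, α x * α x.swap = (p : Qb) ^ a := by
  classical
  obtain ⟨e⟩ := exists_emb (PadicAlgCl p)
  let U := (rts P).filter fun z => ‖e z‖ = 1
  let W := (rts P).filter fun z => ¬ ‖e z‖ = 1
  have hUW : U + W = rts P := Multiset.filter_add_not _ _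
  have hq := norm_q_lt (p := p) ha
  have hcardUW : U.card + W.card = 2 * g := by
    rw [← Multiset.card_add, hUW, rts_card hP]
  -- few non-units
  have hW : W.card ≤ g := by
    obtain ⟨u, hu⟩ := exists_enum (rts P) (rts_card hP)
    have h1 : P.map (Int.castRingHom Qb) = ∏ x, (X - C (u x)) := by
      rw [prod_rts hP, ← hu, Multiset.map_map]
      rfl
    have h2 := card_nonunit_le u P h1 hP.ord e
    have h3 : W.card = (Finset.univ.filter fun x => ‖e (u x)‖ ≠ 1).card := by
      change ((rts P).filter fun z => ¬ ‖e z‖ = 1).card = _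
      rw [← hu, Multiset.filter_map, Multiset.card_map]
      rfl
    omega
  -- units give non-units
  have hUle : U.map (fun z => (p : Qb) ^ a / z) ≤ W := by
    have h1 : U.map (fun z => (p : Qb) ^ a / z) =
        ((U.map fun z => (p : Qb) ^ a / z)).filter fun z => ¬ ‖e z‖ = 1 := by
      symm
      rw [Multiset.filter_eq_self]
      intro z hz
      obtain ⟨w, hw, rfl⟩ := Multiset.mem_map.1 hz
      have hw1 : ‖e w‖ = 1 := (Multiset.mem_filter.1 hw).2
      rw [map_div₀, norm_div, hw1, div_one, map_pow, map_natCast]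
      exact hq.ne
    rw [h1]
    refine Multiset.filter_le_filter _ ?_
    rw [← rts_inv hP]
    exact Multiset.map_le_map (Multiset.filter_le _ _)
  have h1 : U.card ≤ W.card := by
    have := Multiset.card_le_card hUle
    rwa [Multiset.card_map] at this
  have hUg : U.card = g := by omega
  have hUW' : U.map (fun z => (p : Qb) ^ a / z) = W :=
    Multiset.eq_of_le_of_card_le hUle (by rw [Multiset.card_map]; omega)
  obtain ⟨u, hu⟩ := exists_enum U hUg
  have hne : ∀ i, u i ≠ 0 := by
    intro i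
    apply rts_ne hP
    have : u i ∈ U := by
      rw [← hu]
      exact Multiset.mem_map_of_mem u (Finset.mem_univ i)
    exact (Multiset.mem_filter.1 this).1
  refine ⟨Sum.elim u fun i => (p : Qb) ^ a / u i, ?_, ?_⟩
  · rw [← hUW, ← hUW', ← hu, Multiset.map_map]
    rw [← Finset.univ_disjSum_univ, Finset.val_disjSum, Multiset.disjSum, Multiset.map_add,
      Multiset.map_map, Multiset.map_map]
    rfl
  · rintro (i | i)
    · simp only [Sum.swap_inl, Sum.elim_inl, Sum.elim_inr]
      rw [mul_div_cancel₀ _ (hne i)]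
    · simp only [Sum.swap_inr, Sum.elim_inl, Sum.elim_inr]
      rw [div_mul_cancel₀ _ (hne i)]

end

section

variable {p a g : ℕ} [hp : Fact p.Prime] {P : ℤ[X]}

/-- The labels of the roots that are not units. -/
noncomputable def nonunits (α : Fin g ⊕ Fin g → Qb) (e : Qb →+* PadicAlgCl p) :
    Finset (Fin g ⊕ Fin g) :=
  open Classical in Finset.univ.filter fun x => ‖e (α x)‖ ≠ 1

/-- The sets of labels of non-units, for all embeddings. -/
def typesOf (p : ℕ) [Fact p.Prime] (α : Fin g ⊕ Fin g → Qb) : Set (Finset (Fin g ⊕ Fin g)) :=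
  Set.range fun e : Qb →+* PadicAlgCl p => nonunits α e

variable {α : Fin g ⊕ Fin g → Qb}

lemma mem_nonunits {e : Qb →+* PadicAlgCl p} {x : Fin g ⊕ Fin g} :
    x ∈ nonunits α e ↔ ‖e (α x)‖ ≠ 1 := by
  classical
  simp [nonunits]

lemma mem_rts (hα : (Finset.univ : Finset (Fin g ⊕ Fin g)).val.map α = rts P)
    (x : Fin g ⊕ Fin g) : α x ∈ rts P := by
  rw [← hα]
  exact Multiset.mem_map_of_mem α (Finset.mem_univ x)

lemma half_aux (hP : IsOrdinaryWeil p a g P) (ha : 0 < a)
    (hα : (Finset.univ : Finset (Fin g ⊕ Fin g)).val.map α = rts P)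
    (hαα : ∀ x, α x * α x.swap = (p : Qb) ^ a) (e : Qb →+* PadicAlgCl p) (x : Fin g ⊕ Fin g) :
    x ∈ nonunits α e ↔ x.swap ∉ nonunits α e := by
  classical
  have hq := norm_q_lt (p := p) ha
  -- one of two conjugate labels is in the set
  have h1 : ∀ x, x ∈ nonunits α e ∨ x.swap ∈ nonunits α e := by
    intro x
    by_contra hcon
    push Not at hcon
    rw [mem_nonunits, mem_nonunits] at hcon
    push Not at hcon
    have h2 := congrArg (fun z => ‖e z‖) (hαα x)
    simp only [map_mul, norm_mul, hcon.1, hcon.2, mul_one, map_pow, map_natCast] at h2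
    exact hq.ne h2.symm
  have h2 : (nonunits α e).card ≤ g := by
    refine card_nonunit_le α P ?_ hP.ord e
    rw [prod_rts hP, ← hα, Multiset.map_map]
    rfl
  let S := nonunits α e
  let S' := (nonunits α e).image Sum.swap
  have hinj : Function.Injective (Sum.swap : Fin g ⊕ Fin g → Fin g ⊕ Fin g) :=
    Function.Involutive.injective Sum.swap_swap
  have h3 : S'.card = S.card := Finset.card_image_of_injective _ hinj
  have h4 : S ∪ S' = Finset.univ := by
    rw [Finset.eq_univ_iff_forall]
    intro y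
    rw [Finset.mem_union]
    rcases h1 y with h | h
    · exact Or.inl h
    · exact Or.inr (Finset.mem_image.2 ⟨y.swap, h, Sum.swap_swap y⟩)
  have h5 := Finset.card_union_add_card_inter S S'
  rw [h4, Finset.card_univ, Fintype.card_sum, Fintype.card_fin, h3] at h5
  have h6 : S.card ≤ g := h2
  have h7 : (S ∩ S').card = 0 := by omega
  rw [Finset.card_eq_zero] at h7
  constructor
  · intro hx hx'
    have : x ∈ S ∩ S' := Finset.mem_inter.2 ⟨hx, Finset.mem_image.2 ⟨x.swap, hx', Sum.swap_swap x⟩⟩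
    rw [h7] at this
    exact absurd this (Finset.notMem_empty x)
  · intro hx
    exact (h1 x).resolve_right hx

lemma count_conj (hα : (Finset.univ : Finset (Fin g ⊕ Fin g)).val.map α = rts P) (τ : Qb →+* Qb)
    (Q : Qb → Prop) [DecidablePred Q] :
    (Finset.univ.filter fun x => Q (τ (α x))).card = (Finset.univ.filter fun x => Q (α x)).card := by
  have h1 : ∀ f : Fin g ⊕ Fin g → Qb, (Finset.univ.filter fun x => Q (f x)).card =
      (((Finset.univ : Finset (Fin g ⊕ Fin g)).val.map f).filter Q).card := by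
    intro f
    rw [Multiset.filter_map, Multiset.card_map]
    rfl
  have h2 : (Finset.univ : Finset (Fin g ⊕ Fin g)).val.map (fun x => τ (α x)) = rts P := by
    rw [← rts_map_self P τ, ← hα, Multiset.map_map]
    rfl
  rw [h1, h1 α, h2, hα]

lemma symm_conj (hα : (Finset.univ : Finset (Fin g ⊕ Fin g)).val.map α = rts P) (τ : Qb →+* Qb)
    (e e' : Qb →+* PadicAlgCl p) :
    (symmDiff (nonunits α (e.comp τ)) (nonunits α (e'.comp τ))).card =
      (symmDiff (nonunits α e) (nonunits α e')).card := by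
  classical
  let Q : Qb → Prop := fun z => ¬ ((‖e z‖ ≠ 1) ↔ (‖e' z‖ ≠ 1))
  have h1 := count_conj hα τ Q
  have h2 : symmDiff (nonunits α (e.comp τ)) (nonunits α (e'.comp τ)) =
      Finset.univ.filter fun x => Q (τ (α x)) := by
    ext x
    simp only [Finset.mem_symmDiff, mem_nonunits, Finset.mem_filter, Finset.mem_univ, true_and, Q,
      RingHom.comp_apply]
    tauto
  have h3 : symmDiff (nonunits α e) (nonunits α e') = Finset.univ.filter fun x => Q (α x) := by
    ext x
    simp only [Finset.mem_symmDiff, mem_nonunits, Finset.mem_filter, Finset.mem_univ, true_and, Q]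
    tauto
  rw [h2, h3, h1]

/-- The sets of labels form a homogeneous family. -/
theorem types_typesOf (hP : IsOrdinaryWeil p a g P) (ha : 0 < a) (hg : g ≤ 4)
    (hα : (Finset.univ : Finset (Fin g ⊕ Fin g)).val.map α = rts P)
    (hαα : ∀ x, α x * α x.swap = (p : Qb) ^ a) : Types (typesOf p α) where
  four := hg
  half := by
    rintro _ ⟨e, rfl⟩ x
    exact half_aux hP ha hα hαα e x
  compl := by
    rintro _ ⟨e, rfl⟩
    obtain ⟨τ, hτ⟩ := exists_cc hP
    refine ⟨e.comp τ, ?_⟩
    ext x
    have h1 : τ (α x) = α x.swap := by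
      rw [hτ _ (mem_rts hα x), ← hαα x, mul_comm, mul_div_assoc,
        div_self (rts_ne hP (mem_rts hα x)), mul_one]
    change x ∈ nonunits α (e.comp τ) ↔ _
    rw [mem_nonunits, RingHom.comp_apply, h1, Finset.mem_compl, half_aux hP ha hα hαα e x,
      not_not, mem_nonunits]
  hom := by
    classical
    rintro _ ⟨e, rfl⟩ _ ⟨e', rfl⟩
    obtain ⟨τ, hτ⟩ := exists_conj e e'
    have he' : e' = e.comp τ := RingHom.ext hτ
    let f : Finset (Fin g ⊕ Fin g) → Finset (Fin g ⊕ Fin g) := fun N =>
      if h : ∃ e1 : Qb →+* PadicAlgCl p, nonunits α e1 = N then nonunits α (h.choose.comp τ) else N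
    have hf : ∀ e1 : Qb →+* PadicAlgCl p, f (nonunits α e1) = nonunits α (e1.comp τ) := by
      intro e1
      have h : ∃ e2 : Qb →+* PadicAlgCl p, nonunits α e2 = nonunits α e1 := ⟨e1, rfl⟩
      have h1 : f (nonunits α e1) = nonunits α (h.choose.comp τ) := dif_pos h
      have h2 := symm_conj hα τ h.choose e1
      rw [h.choose_spec, symmDiff_self, Finset.bot_eq_empty, Finset.card_empty,
        Finset.card_eq_zero] at h2
      rw [h1]
      exact symmDiff_eq_bot.1 h2
    refine ⟨f, ?_, ?_, ?_⟩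
    · rintro _ ⟨e1, rfl⟩
      refine ⟨e1.comp τ, ?_⟩
      exact (hf e1).symm
    · change f (nonunits α e) = nonunits α e'
      rw [hf, he']
    · rintro _ ⟨e1, rfl⟩ _ ⟨e2, rfl⟩
      change (symmDiff (f (nonunits α e1)) (f (nonunits α e2))).card = _
      rw [hf, hf]
      exact symm_conj hα τ e1 e2
  ne := by
    obtain ⟨e⟩ := exists_emb (PadicAlgCl p)
    exact ⟨_, ⟨e, rfl⟩⟩

/-- The absolute value of a product of roots. -/
lemma norm_prod_roots (hP : IsOrdinaryWeil p a g P) (ha : 0 < a)
    (hα : (Finset.univ : Finset (Fin g ⊕ Fin g)).val.map α = rts P)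
    (hαα : ∀ x, α x * α x.swap = (p : Qb) ^ a) (e : Qb →+* PadicAlgCl p) {κ : Type}
    (S : Finset κ) (z : κ → Fin g ⊕ Fin g) [DecidablePred fun k => z k ∈ nonunits α e] :
    ‖e (∏ k ∈ S, α (z k))‖ =
      ‖((p : PadicAlgCl p) ^ a)‖ ^ (S.filter fun k => z k ∈ nonunits α e).card := by
  have h1 : ∀ x, ‖e (α x)‖ = if x ∈ nonunits α e then ‖((p : PadicAlgCl p) ^ a)‖ else 1 := by
    intro x
    split_ifs with hx
    · have h2 := (half_aux hP ha hα hαα e x).1 hx
      rw [mem_nonunits, not_not] at h2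
      have h3 := congrArg (fun z => ‖e z‖) (hαα x)
      simp only [map_mul, norm_mul, h2, mul_one, map_pow, map_natCast] at h3
      exact h3
    · rwa [mem_nonunits, not_not] at hx
  rw [map_prod, norm_prod, ← Finset.prod_filter_mul_prod_filter_not S
    (fun k => z k ∈ nonunits α e)]
  have h2 : ∏ k ∈ S.filter (fun k => z k ∈ nonunits α e), ‖e (α (z k))‖ =
      ‖((p : PadicAlgCl p) ^ a)‖ ^ (S.filter fun k => z k ∈ nonunits α e).card := by
    rw [← Finset.prod_const]
    exact Finset.prod_congr rfl fun k hk => by rw [h1, if_pos (Finset.mem_filter.1 hk).2]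
  have h3 : ∏ k ∈ S.filter (fun k => ¬ z k ∈ nonunits α e), ‖e (α (z k))‖ = 1 :=
    Finset.prod_eq_one fun k hk => by rw [h1, if_neg (Finset.mem_filter.1 hk).2]
  rw [h2, h3, mul_one]

/-- Divisibility of products of roots by powers of `q`. -/
theorem integral_iff (hP : IsOrdinaryWeil p a g P) (ha : 0 < a)
    (hα : (Finset.univ : Finset (Fin g ⊕ Fin g)).val.map α = rts P)
    (hαα : ∀ x, α x * α x.swap = (p : Qb) ^ a) {κ : Type} [DecidableEq κ]
    (S : Finset κ) (z : κ → Fin g ⊕ Fin g) (ν : ℕ) :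
    IsIntegral ℤ ((∏ k ∈ S, α (z k)) / ((p : Qb) ^ a) ^ ν) ↔
      ∀ N ∈ typesOf p α, ν ≤ (S.filter fun k => z k ∈ N).card := by
  classical
  constructor
  · rintro h _ ⟨e, rfl⟩
    have h1 : IsIntegral ℤ (e ((∏ k ∈ S, α (z k)) / ((p : Qb) ^ a) ^ ν)) :=
      h.map (e : Qb →+* PadicAlgCl p).toIntAlgHom
    have h2 := Pool.Agent.R940.padic_integral h1
    rw [map_div₀, norm_div, norm_prod_roots hP ha hα hαα, map_pow, map_pow, map_natCast,
      norm_pow ((p : PadicAlgCl p) ^ a)] at h2
    have hq := norm_q_lt (p := p) ha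
    have hq0 : 0 < ‖((p : PadicAlgCl p) ^ a)‖ := norm_pos_iff.2
      (pow_ne_zero _ (Nat.cast_ne_zero.2 hp.out.ne_zero))
    rw [div_le_one (by positivity)] at h2
    exact (pow_le_pow_iff_right_of_lt_one₀ hq0 hq).1 h2
  · intro h
    apply Pool.Agent.R940.isIntegral_of_padic (algebraic_Qb _)
    intro l hl y hy
    obtain ⟨ψ, hψ⟩ : ∃ ψ : Qb →+* PadicAlgCl l,
        ψ ((∏ k ∈ S, α (z k)) / ((p : Qb) ^ a) ^ ν) = y := by
      have : Algebra.IsAlgebraic ℚ Qb := ⟨algebraic_Qb⟩
      have h2 := Algebra.IsAlgebraic.range_eval_eq_rootSet_minpoly (PadicAlgCl l)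
        ((∏ k ∈ S, α (z k)) / ((p : Qb) ^ a) ^ ν) (F := ℚ)
      have h3 : y ∈ (minpoly ℚ ((∏ k ∈ S, α (z k)) / ((p : Qb) ^ a) ^ ν)).rootSet
          (PadicAlgCl l) := by
        rw [mem_rootSet]
        exact ⟨minpoly.ne_zero (algebraic_Qb _).isIntegral, hy⟩
      rw [← h2] at h3
      obtain ⟨ψ, hψ⟩ := h3
      exact ⟨ψ.toRingHom, hψ⟩
    rw [← hψ]
    by_cases hlp : l = p
    · subst hlp
      have h3 := h _ ⟨ψ, rfl⟩
      rw [map_div₀, norm_div, norm_prod_roots hP ha hα hαα, map_pow, map_pow, map_natCast,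
        norm_pow ((l : PadicAlgCl l) ^ a)]
      have hq := norm_q_lt (p := l) ha
      have hq0 : 0 < ‖((l : PadicAlgCl l) ^ a)‖ := norm_pos_iff.2
        (pow_ne_zero _ (Nat.cast_ne_zero.2 hl.out.ne_zero))
      rw [div_le_one (by positivity)]
      exact pow_le_pow_of_le_one hq0.le hq.le h3
    · have h3 : ‖ψ (∏ k ∈ S, α (z k))‖ ≤ 1 := by
        rw [map_prod, norm_prod]
        refine Finset.prod_le_one (fun _ _ => norm_nonneg _) fun k _ => ?_
        apply Pool.Agent.R940.padic_integral
        refine ⟨P, hP.monic, ?_⟩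
        have h1 : algebraMap ℤ (PadicAlgCl l) = ψ.comp (Int.castRingHom Qb) := RingHom.ext_int _ _
        have h2 := isRoot_of_mem_roots (mem_rts hα (z k))
        rw [IsRoot.def, eval_map] at h2
        rw [h1, ← hom_eval₂, h2, map_zero]
      have h4 : ‖(p : PadicAlgCl l)‖ = 1 := by
        have h : ((p : ℚ_[l]) : PadicAlgCl l) = (p : PadicAlgCl l) :=
          map_natCast (algebraMap ℚ_[l] (PadicAlgCl l)) p
        rw [← h, PadicAlgCl.norm_extends]
        have h5 : ¬ l ∣ p := fun h5 => hlp ((Nat.prime_dvd_prime_iff_eq hl.out hp.out).1 h5)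
        have h6 : ((p : ℤ) : ℚ_[l]) = (p : ℚ_[l]) := by push_cast; rfl
        rw [← h6]
        have h7 := Padic.norm_int_le_one (p := l) (p : ℤ)
        have h8 : ¬ ‖((p : ℤ) : ℚ_[l])‖ < 1 := by
          rw [Padic.norm_intCast_lt_one_iff]
          exact fun h9 => h5 (Int.natCast_dvd_natCast.1 h9)
        exact le_antisymm h7 (not_lt.1 h8)
      rw [map_div₀, norm_div, map_pow, map_pow, map_natCast, norm_pow, norm_pow, h4, one_pow,
        one_pow, div_one]
      exact h3

end

end Pool.Agent.W2helper27.GT
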