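import Mathlib

/-!
# Packing in homogeneous families of subsets of a set with at most four elements

`𝒟` is a family of subsets of a set `ι` with at most four elements, stable under complements and
homogeneous for the distance `|D Δ D'|`. If a weight function `y : ι → ℕ` has weight at least `ν > 0`
on all members of `𝒟`, then there is a nonempty subset `T` of the support of `y` such that all
members of `𝒟` meet `T` in at least `κ` elements, and `y` has on `D` at least the weight
`ν - κ + |T ∩ D|`.
-/

set_option autoImplicit false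
set_option linter.unusedSectionVars false

namespace Pool.Agent.W2helper27.GT

open Finset

/-- Any two members of the family are exchanged by a distance preserving map. -/
def Homog {ι : Type} [DecidableEq ι] (𝒟 : Set (Finset ι)) : Prop :=
  ∀ D ∈ 𝒟, ∀ D' ∈ 𝒟, ∃ f : Finset ι → Finset ι, (∀ E ∈ 𝒟, f E ∈ 𝒟) ∧ f D = D' ∧
    ∀ E ∈ 𝒟, ∀ E' ∈ 𝒟, (symmDiff (f E) (f E')).card = (symmDiff E E').card

section

variable {ι : Type} [Fintype ι] [DecidableEq ι]

/-- the set can be removed -/
def Removable (𝒟 : Set (Finset ι)) (y : ι → ℕ) (ν : ℕ) (T : Finset ι) (κ : ℕ) : Prop :=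
  T.Nonempty ∧ (∀ i ∈ T, y i ≠ 0) ∧
    ∀ D ∈ 𝒟, κ ≤ (T ∩ D).card ∧ ν + (T ∩ D).card ≤ ∑ i ∈ D, y i + κ

variable {𝒟 : Set (Finset ι)} {y : ι → ℕ} {ν : ℕ}

lemma single_le {D : Finset ι} {i : ι} (h : i ∈ D) : y i ≤ ∑ i ∈ D, y i :=
  Finset.single_le_sum (f := y) (fun _ _ => Nat.zero_le _) h

lemma pair_le {D : Finset ι} {i j : ι} (hi : i ∈ D) (hj : j ∈ D) (hij : i ≠ j) :
    y i + y j ≤ ∑ i ∈ D, y i := by
  rw [← Finset.sum_pair hij]
  exact Finset.sum_le_sum_of_subset (by
    intro l hl
    rcases Finset.mem_insert.1 hl with rfl | hl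
    · exact hi
    · rw [Finset.mem_singleton.1 hl]; exact hj)

/-- if some element is in no tight member -/
lemma of_notCrit (hν : ∀ D ∈ 𝒟, ν ≤ ∑ i ∈ D, y i) {i : ι} (hi : y i ≠ 0)
    (h : ∀ D ∈ 𝒟, i ∈ D → ∑ i ∈ D, y i ≠ ν) : Removable 𝒟 y ν {i} 0 := by
  refine ⟨⟨i, Finset.mem_singleton_self i⟩, fun j hj => ?_, fun D hD => ⟨Nat.zero_le _, ?_⟩⟩
  · rwa [Finset.mem_singleton.1 hj]
  · by_cases hiD : i ∈ D
    · have h1 := hν D hD
      have h2 := h D hD hiD
      have h3 : (({i} : Finset ι) ∩ D).card ≤ 1 :=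
        le_trans (Finset.card_le_card Finset.inter_subset_left) (by simp)
      omega
    · rw [Finset.singleton_inter_of_notMem hiD]
      have h1 := hν D hD
      simpa using h1

lemma compl_sum {D : Finset ι} : ∑ i ∈ D, y i + ∑ i ∈ Dᶜ, y i = ∑ i, y i :=
  Finset.sum_add_sum_compl D y

/-- The case in which all members are tight. -/
lemma case_one (hι : Fintype.card ι ≤ 4) (hc : ∀ D ∈ 𝒟, Dᶜ ∈ 𝒟) (hν0 : 0 < ν)
    (ht : ∀ D ∈ 𝒟, ∑ i ∈ D, y i = ν) (hs : ∑ i, y i = 2 * ν) (hne : 𝒟.Nonempty) :
    ∃ T κ, Removable 𝒟 y ν T κ := by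
  by_cases h1 : ∃ j, y j = ν
  · obtain ⟨j, hj⟩ := h1
    -- another element
    obtain ⟨k, hk, hk0⟩ : ∃ k, k ≠ j ∧ y k ≠ 0 := by
      by_contra hcon
      push Not at hcon
      have h2 : ∑ i, y i = y j := Finset.sum_eq_single j (fun k _ hk => hcon k hk)
        (fun h => absurd (Finset.mem_univ _) h)
      omega
    have key : ∀ D ∈ 𝒟, j ∈ D → k ∉ D := by
      intro D hD hjD hkD
      have h2 := pair_le (y := y) hjD hkD (Ne.symm hk)
      rw [ht D hD] at h2
      omega
    refine ⟨{j, k}, 1, ⟨j, by simp⟩, fun i hi => ?_, fun D hD => ?_⟩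
    · rcases Finset.mem_insert.1 hi with rfl | hi
      · omega
      · rw [Finset.mem_singleton.1 hi]; exact hk0
    · have h3 : (({j, k} : Finset ι) ∩ D).card = 1 := by
        by_cases hjD : j ∈ D
        · rw [Finset.insert_inter_of_mem hjD, Finset.singleton_inter_of_notMem (key D hD hjD)]
          simp
        · have hkD : k ∈ D := by
            by_contra hkD
            exact key Dᶜ (hc D hD) (Finset.mem_compl.2 hjD) (Finset.mem_compl.2 hkD)
          rw [Finset.insert_inter_of_notMem hjD, Finset.singleton_inter_of_mem hkD]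
          simp
      rw [h3, ht D hD]
      exact ⟨le_rfl, le_rfl⟩
  · push Not at h1
    -- every member has at least two elements in the support
    have h2 : ∀ D ∈ 𝒟, 2 ≤ (D.filter fun i => y i ≠ 0).card := by
      intro D hD
      by_contra hcon
      have h3 : (D.filter fun i => y i ≠ 0).card ≤ 1 := by omega
      rw [Finset.card_le_one] at h3
      have h4 : ∃ j ∈ D, y j ≠ 0 := by
        by_contra h5
        push Not at h5
        have := ht D hD
        rw [Finset.sum_eq_zero h5] at this
        omega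
      obtain ⟨j, hj, hj0⟩ := h4
      have h6 : ∑ i ∈ D, y i = y j := by
        refine Finset.sum_eq_single_of_mem j hj fun i hi hij => ?_
        by_contra h7
        exact hij (h3 i (Finset.mem_filter.2 ⟨hi, h7⟩) j (Finset.mem_filter.2 ⟨hj, hj0⟩))
      rw [ht D hD] at h6
      exact h1 j h6.symm
    have h3 : ∀ D ∈ 𝒟, 2 ≤ D.card := fun D hD =>
      le_trans (h2 D hD) (Finset.card_le_card (Finset.filter_subset _ _))
    have h4 : ∀ D ∈ 𝒟, D.card = 2 := by
      intro D hD
      have := h3 D hD
      have h5 := h3 _ (hc D hD)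
      rw [Finset.card_compl] at h5
      omega
    have h4' : Fintype.card ι = 4 := by
      obtain ⟨D, hD⟩ := hne
      have h5 := h4 _ (hc D hD)
      have h6 := h4 D hD
      rw [Finset.card_compl] at h5
      omega
    have h5 : ∀ i, y i ≠ 0 := by
      obtain ⟨D, hD⟩ := hne
      have h6 : ∀ D ∈ 𝒟, ∀ i ∈ D, y i ≠ 0 := by
        intro D hD i hi
        have h7 : D.filter (fun i => y i ≠ 0) = D :=
          Finset.eq_of_subset_of_card_le (Finset.filter_subset _ _) (by
            rw [h4 D hD]; exact h2 D hD)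
        rw [← h7] at hi
        exact (Finset.mem_filter.1 hi).2
      intro i
      by_cases hi : i ∈ D
      · exact h6 D hD i hi
      · exact h6 _ (hc D hD) i (Finset.mem_compl.2 hi)
    by_cases h6 : ∃ P : Finset ι, P.card = 2 ∧ P ∉ 𝒟
    · obtain ⟨P, hP2, hP⟩ := h6
      refine ⟨P, 1, Finset.card_pos.1 (by omega), fun i _ => h5 i, fun D hD => ?_⟩
      have h7 : (P ∩ D).card = 1 := by
        have h8 : (P ∩ D).card ≤ 2 := le_trans (Finset.card_le_card Finset.inter_subset_left)
          hP2.le
        have h9 : (P ∩ D).card ≠ 2 := by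
          intro h10
          have h11 : P ∩ D = P := Finset.eq_of_subset_of_card_le Finset.inter_subset_left (by omega)
          have h12 : P ∩ D = D := Finset.eq_of_subset_of_card_le Finset.inter_subset_right (by
            rw [h4 D hD]; omega)
          rw [h11] at h12
          rw [h12] at hP
          exact hP hD
        have h10 : (P ∩ D).card ≠ 0 := by
          intro h10
          rw [Finset.card_eq_zero] at h10
          have h11 : P ⊆ Dᶜ := by
            intro i hi
            rw [Finset.mem_compl]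
            intro hiD
            have : i ∈ P ∩ D := Finset.mem_inter.2 ⟨hi, hiD⟩
            rw [h10] at this
            exact absurd this (Finset.notMem_empty i)
          have h12 : P = Dᶜ := Finset.eq_of_subset_of_card_le h11 (by
            rw [h4 _ (hc D hD), hP2])
          rw [h12] at hP
          exact hP (hc D hD)
        omega
      rw [h7, ht D hD]
      exact ⟨le_rfl, le_rfl⟩
    · push Not at h6
      have hcard : 0 < Fintype.card ι := by omega
      have : Nonempty ι := Fintype.card_pos_iff.1 hcard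
      refine ⟨Finset.univ, 2, Finset.univ_nonempty, fun i _ => h5 i, fun D hD => ?_⟩
      rw [Finset.univ_inter, h4 D hD, ht D hD]
      exact ⟨le_rfl, le_rfl⟩

end

section

variable {ι : Type} [Fintype ι] [DecidableEq ι] {𝒟 : Set (Finset ι)} {y : ι → ℕ} {ν : ℕ}

/-- The hypotheses of the second case. -/
structure Hyp (𝒟 : Set (Finset ι)) (y : ι → ℕ) (ν : ℕ) : Prop where
  four : Fintype.card ι ≤ 4
  compl : ∀ D ∈ 𝒟, Dᶜ ∈ 𝒟
  hom : Homog 𝒟
  pos : 0 < ν
  le : ∀ D ∈ 𝒟, ν ≤ ∑ i ∈ D, y i
  crit : ∀ i, y i ≠ 0 → ∃ D ∈ 𝒟, i ∈ D ∧ ∑ i ∈ D, y i = ν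
  big : 2 * ν < ∑ i, y i

/-- Two elements of the support which form a tight member. -/
def Edge (𝒟 : Set (Finset ι)) (y : ι → ℕ) (ν : ℕ) (i j : ι) : Prop :=
  i ≠ j ∧ ({i, j} : Finset ι) ∈ 𝒟 ∧ y i + y j = ν ∧ y i ≠ 0 ∧ y j ≠ 0

lemma Edge.symm {i j : ι} (h : Edge 𝒟 y ν i j) : Edge 𝒟 y ν j i :=
  ⟨h.1.symm, by rw [Finset.pair_comm]; exact h.2.1, by rw [add_comm]; exact h.2.2.1, h.2.2.2.2,
    h.2.2.2.1⟩

namespace Hyp

variable (h : Hyp 𝒟 y ν)

include h

lemma tight_card {D : Finset ι} (hD : D ∈ 𝒟) (ht : ∑ i ∈ D, y i = ν) : D.card ≤ 2 := by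
  have h1 := compl_sum (y := y) (D := D)
  have h2 := h.big
  by_contra hcon
  have h3 : Dᶜ.card ≤ 1 := by
    rw [Finset.card_compl]
    have := h.four
    omega
  rcases Nat.lt_or_ge Dᶜ.card 1 with h4 | h4
  · have h5 : Dᶜ = ∅ := Finset.card_eq_zero.1 (by omega)
    rw [h5, Finset.sum_empty] at h1
    have := h.pos
    omega
  · obtain ⟨i, hi⟩ := Finset.card_eq_one.1 (le_antisymm h3 h4)
    rw [hi, Finset.sum_singleton] at h1
    have h5 : ν < y i := by omega
    obtain ⟨E, -, hiE, hE⟩ := h.crit i (by omega)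
    have h6 := single_le (y := y) hiE
    omega

lemma cover {i : ι} (hi : y i ≠ 0) : y i = ν ∨ ∃ j, Edge 𝒟 y ν i j := by
  obtain ⟨D, hD, hiD, ht⟩ := h.crit i hi
  have h1 := h.tight_card hD ht
  by_cases h2 : ∃ j ∈ D, j ≠ i ∧ y j ≠ 0
  · obtain ⟨j, hj, hji, hj0⟩ := h2
    right
    have h3 : ({i, j} : Finset ι) = D := by
      refine Finset.eq_of_subset_of_card_le ?_ ?_
      · intro l hl
        rcases Finset.mem_insert.1 hl with rfl | hl
        · exact hiD
        · rw [Finset.mem_singleton.1 hl]; exact hj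
      · rw [Finset.card_pair hji.symm]; exact h1
    refine ⟨j, hji.symm, h3 ▸ hD, ?_, hi, hj0⟩
    rw [← Finset.sum_pair hji.symm, h3, ht]
  · push Not at h2
    left
    rw [← ht]
    exact (Finset.sum_eq_single_of_mem i hiD h2).symm

/-- Two edges meet. -/
lemma meet {v w a b : ι} (h1 : Edge 𝒟 y ν v w) (h2 : Edge 𝒟 y ν a b) :
    a = v ∨ a = w ∨ b = v ∨ b = w := by
  by_contra hcon
  push Not at hcon
  have h3 : ({a, b} : Finset ι) = ({v, w} : Finset ι)ᶜ := by
    refine Finset.eq_of_subset_of_card_le ?_ ?_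
    · intro l hl
      rw [Finset.mem_compl, Finset.mem_insert, Finset.mem_singleton]
      rcases Finset.mem_insert.1 hl with rfl | hl
      · push Not; exact ⟨hcon.1, hcon.2.1⟩
      · rw [Finset.mem_singleton.1 hl]; push Not; exact ⟨hcon.2.2.1, hcon.2.2.2⟩
    · rw [Finset.card_compl, Finset.card_pair h1.1, Finset.card_pair h2.1]
      have := h.four
      omega
  have h4 := compl_sum (y := y) (D := {v, w})
  rw [← h3, Finset.sum_pair h1.1, Finset.sum_pair h2.1, h1.2.2.1, h2.2.2.1] at h4
  have := h.big
  omega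

/-- There are no triangles. -/
lemma no_triangle {v w u : ι} (h1 : Edge 𝒟 y ν v w) (h2 : Edge 𝒟 y ν v u)
    (h3 : Edge 𝒟 y ν w u) : False := by
  have e1 := h1.2.2.1
  have e2 := h2.2.2.1
  have e3 := h3.2.2.1
  have p0 := h1.2.2.2.1
  have hb := h.big
  -- the fourth element
  obtain ⟨t, ht⟩ : ∃ t, t ∉ ({v, w, u} : Finset ι) := by
    by_contra hcon
    push Not at hcon
    have h4 : (Finset.univ : Finset ι) = {v, w, u} := by
      ext i
      exact ⟨fun _ => hcon i, fun _ => Finset.mem_univ i⟩
    rw [h4, Finset.sum_insert (by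
      rw [Finset.mem_insert, Finset.mem_singleton]; push Not; exact ⟨h1.1, h2.1⟩),
      Finset.sum_pair h3.1] at hb
    omega
  have htv : t ≠ v := fun h => ht (by simp [h])
  have htw : t ≠ w := fun h => ht (by simp [h])
  have htu : t ≠ u := fun h => ht (by simp [h])
  have hcard4 : ({v, w, u, t} : Finset ι).card = 4 := by
    rw [Finset.card_insert_of_notMem, Finset.card_insert_of_notMem, Finset.card_pair htu.symm]
    · rw [Finset.mem_insert, Finset.mem_singleton]; push Not; exact ⟨h3.1, htw.symm⟩
    · rw [Finset.mem_insert, Finset.mem_insert, Finset.mem_singleton]; push Not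
      exact ⟨h1.1, h2.1, htv.symm⟩
  have huniv : ({v, w, u, t} : Finset ι) = Finset.univ := by
    rw [← Finset.card_eq_iff_eq_univ, hcard4]
    have h5 : ({v, w, u, t} : Finset ι).card ≤ Fintype.card ι := Finset.card_le_univ _
    have := h.four
    omega
  have hall : ∀ i, i = v ∨ i = w ∨ i = u ∨ i = t := by
    intro i
    have : i ∈ ({v, w, u, t} : Finset ι) := by rw [huniv]; exact Finset.mem_univ i
    simpa using this
  have hsum : ∑ i, y i = y v + (y w + (y u + y t)) := by
    rw [← huniv, Finset.sum_insert, Finset.sum_insert, Finset.sum_pair htu.symm]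
    · rw [Finset.mem_insert, Finset.mem_singleton]; push Not; exact ⟨h3.1, htw.symm⟩
    · rw [Finset.mem_insert, Finset.mem_insert, Finset.mem_singleton]; push Not
      exact ⟨h1.1, h2.1, htv.symm⟩
  have hyt : y v < y t := by omega
  -- `{t}` is a member
  have htD : ({t} : Finset ι) ∈ 𝒟 := by
    obtain ⟨D, hD, htD, hDt⟩ := h.crit t (by omega)
    have h4 : D = {t} := by
      rw [Finset.eq_singleton_iff_unique_mem]
      refine ⟨htD, fun j hj => ?_⟩
      by_contra hjt
      have h5 := pair_le (y := y) htD hj (Ne.symm hjt)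
      rcases hall j with rfl | rfl | rfl | rfl
      · omega
      · omega
      · omega
      · exact hjt rfl
    rw [← h4]
    exact hD
  have hsing : ∀ i, y i < ν → ({i} : Finset ι) ∉ 𝒟 := by
    intro i hi hcon
    have := h.le _ hcon
    rw [Finset.sum_singleton] at this
    omega
  have c1 : ({v, w} : Finset ι)ᶜ = {u, t} := by
    refine (Finset.eq_of_subset_of_card_le ?_ ?_).symm
    · intro l hl
      rw [Finset.mem_compl, Finset.mem_insert, Finset.mem_singleton]
      rcases Finset.mem_insert.1 hl with rfl | hl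
      · push Not; exact ⟨h2.1.symm, h3.1.symm⟩
      · rw [Finset.mem_singleton.1 hl]; push Not; exact ⟨htv, htw⟩
    · rw [Finset.card_compl, Finset.card_pair h1.1, Finset.card_pair htu.symm]
      have := h.four
      omega
  have c2 : ({v, u} : Finset ι)ᶜ = {w, t} := by
    refine (Finset.eq_of_subset_of_card_le ?_ ?_).symm
    · intro l hl
      rw [Finset.mem_compl, Finset.mem_insert, Finset.mem_singleton]
      rcases Finset.mem_insert.1 hl with rfl | hl
      · push Not; exact ⟨h1.1.symm, h3.1⟩
      · rw [Finset.mem_singleton.1 hl]; push Not; exact ⟨htv, htu⟩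
    · rw [Finset.card_compl, Finset.card_pair h2.1, Finset.card_pair htw.symm]
      have := h.four
      omega
  have m1 : ({u, t} : Finset ι) ∈ 𝒟 := c1 ▸ h.compl _ h1.2.1
  have m2 : ({w, t} : Finset ι) ∈ 𝒟 := c2 ▸ h.compl _ h2.2.1
  obtain ⟨f, hf, hft, hfd⟩ := h.hom _ htD _ h1.2.1
  -- neighbours of `{v, w}`
  have key : ∀ E ∈ 𝒟, (symmDiff ({v, w} : Finset ι) E).card = 1 → E = symmDiff {v, w} {u} := by
    intro E hE hEc
    obtain ⟨e, he⟩ := Finset.card_eq_one.1 hEc
    have h5 : E = symmDiff {v, w} {e} := by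
      rw [← he, symmDiff_symmDiff_cancel_left]
    rcases hall e with rfl | rfl | rfl | rfl
    · exfalso
      have h6 : E = {w} := by
        rw [h5]
        ext l
        simp only [Finset.mem_symmDiff, Finset.mem_insert, Finset.mem_singleton]
        have := h1.1
        constructor
        · rintro (⟨h7 | h7, h8⟩ | ⟨h7, h8⟩)
          · exact absurd h7 h8
          · exact h7
          · exact absurd (Or.inl h7) h8
        · rintro rfl
          exact Or.inl ⟨Or.inr rfl, this.symm⟩
      exact hsing w (by omega) (h6 ▸ hE)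
    · exfalso
      have h6 : E = {v} := by
        rw [h5]
        ext l
        simp only [Finset.mem_symmDiff, Finset.mem_insert, Finset.mem_singleton]
        have := h1.1
        constructor
        · rintro (⟨h7 | h7, h8⟩ | ⟨h7, h8⟩)
          · exact h7
          · exact absurd h7 h8
          · exact absurd (Or.inr h7) h8
        · rintro rfl
          exact Or.inl ⟨Or.inl rfl, this⟩
      exact hsing v (by omega) (h6 ▸ hE)
    · exact h5
    · exfalso
      have h6 : Eᶜ = {u} := by
        rw [h5]
        ext l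
        simp only [Finset.mem_compl, Finset.mem_symmDiff, Finset.mem_insert, Finset.mem_singleton]
        have := h1.1
        constructor
        · intro h7
          rcases hall l with rfl | rfl | rfl | rfl
          · exact absurd (Or.inl ⟨Or.inl rfl, htv.symm⟩) h7
          · exact absurd (Or.inl ⟨Or.inr rfl, htw.symm⟩) h7
          · rfl
          · exact absurd (Or.inr ⟨rfl, by push Not; exact ⟨htv, htw⟩⟩) h7
        · rintro rfl
          rintro (⟨h7 | h7, h8⟩ | ⟨h7, h8⟩)
          · exact h2.1 h7.symm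
          · exact h3.1 h7.symm
          · exact htu h7.symm
      exact hsing u (by omega) (h6 ▸ h.compl _ hE)
  have d1 : (symmDiff ({t} : Finset ι) {u, t}).card = 1 := by
    have : symmDiff ({t} : Finset ι) {u, t} = {u} := by
      ext l
      simp only [Finset.mem_symmDiff, Finset.mem_insert, Finset.mem_singleton]
      constructor
      · rintro (⟨h7, h8⟩ | ⟨h7 | h7, h8⟩)
        · exact absurd (Or.inr h7) h8
        · exact h7
        · exact absurd h7 h8
      · rintro rfl
        exact Or.inr ⟨Or.inl rfl, htu.symm⟩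
    rw [this, Finset.card_singleton]
  have d2 : (symmDiff ({t} : Finset ι) {w, t}).card = 1 := by
    have : symmDiff ({t} : Finset ι) {w, t} = {w} := by
      ext l
      simp only [Finset.mem_symmDiff, Finset.mem_insert, Finset.mem_singleton]
      constructor
      · rintro (⟨h7, h8⟩ | ⟨h7 | h7, h8⟩)
        · exact absurd (Or.inr h7) h8
        · exact h7
        · exact absurd h7 h8
      · rintro rfl
        exact Or.inr ⟨Or.inl rfl, htw.symm⟩
    rw [this, Finset.card_singleton]
  have g1 := key _ (hf _ m1) (by rw [← hft, hfd _ htD _ m1, d1])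
  have g2 := key _ (hf _ m2) (by rw [← hft, hfd _ htD _ m2, d2])
  have g3 := hfd _ m1 _ m2
  rw [g1, g2, symmDiff_self, Finset.bot_eq_empty, Finset.card_empty] at g3
  have g4 : u ∈ symmDiff ({u, t} : Finset ι) {w, t} := by
    rw [Finset.mem_symmDiff]
    left
    refine ⟨Finset.mem_insert_self _ _, ?_⟩
    rw [Finset.mem_insert, Finset.mem_singleton]
    push Not
    exact ⟨h3.1.symm, htu.symm⟩
  have g5 := Finset.card_pos.2 ⟨u, g4⟩
  omega

/-- Without edges. -/
lemma no_edges (hE : ∀ i j, ¬ Edge 𝒟 y ν i j) : ∃ T κ, Removable 𝒟 y ν T κ := by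
  have h1 : ∀ i, y i ≠ 0 → y i = ν := by
    intro i hi
    rcases h.cover hi with h1 | ⟨j, h1⟩
    · exact h1
    · exact absurd h1 (hE i j)
  refine ⟨Finset.univ.filter fun i => y i ≠ 0, 1, ?_, fun i hi => (Finset.mem_filter.1 hi).2,
    fun D hD => ?_⟩
  · by_contra hcon
    rw [Finset.not_nonempty_iff_eq_empty, Finset.filter_eq_empty_iff] at hcon
    have h2 : ∑ i, y i = 0 := Finset.sum_eq_zero fun i hi => by
      have := hcon hi
      push Not at this
      exact this
    have := h.big
    omega
  · have h2 : ∑ i ∈ D, y i = (Finset.univ.filter (fun i => y i ≠ 0) ∩ D).card * ν := by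
      rw [← smul_eq_mul, ← Finset.sum_const]
      have h3 : Finset.univ.filter (fun i => y i ≠ 0) ∩ D = D.filter fun i => y i ≠ 0 := by
        ext i
        simp [and_comm]
      rw [h3, Finset.sum_filter]
      refine Finset.sum_congr rfl fun i _ => ?_
      by_cases hi : y i ≠ 0
      · rw [if_pos hi, h1 i hi]
      · rw [if_neg hi]
        push Not at hi
        exact hi
    have h4 := h.le D hD
    have h5 := h.pos
    rw [h2] at h4 ⊢
    generalize (Finset.univ.filter (fun i => y i ≠ 0) ∩ D).card = a at *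
    have h6 : 1 ≤ a := by
      rcases Nat.eq_zero_or_pos a with h6 | h6
      · rw [h6, zero_mul] at h4
        omega
      · exact h6
    refine ⟨h6, ?_⟩
    obtain ⟨a', rfl⟩ : ∃ a', a = a' + 1 := ⟨a - 1, by omega⟩
    have : a' ≤ a' * ν := Nat.le_mul_of_pos_right _ h5
    rw [add_mul]
    omega

/-- All edges contain one vertex. -/
lemma star {v w : ι} (hvw : Edge 𝒟 y ν v w) (hcen : ∀ i j, Edge 𝒟 y ν i j → i = v ∨ j = v) :
    ∃ T κ, Removable 𝒟 y ν T κ := by
  have e1 := hvw.2.2.1
  have p1 := hvw.2.2.2.1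
  have p2 := hvw.2.2.2.2
  obtain ⟨y', hy'⟩ : ∃ y', y' = y w := ⟨_, rfl⟩
  rw [← hy'] at e1 p2
  have h1 : ∀ i, i ≠ v → y i ≠ 0 → y i = ν ∨ y i = y' := by
    intro i hiv hi
    rcases h.cover hi with h1 | ⟨j, h1⟩
    · exact Or.inl h1
    · right
      rcases hcen i j h1 with rfl | rfl
      · exact absurd rfl hiv
      · have := h1.2.2.1
        omega
  refine ⟨Finset.univ.filter fun i => i ≠ v ∧ y i ≠ 0, 1, ⟨w, ?_⟩,
    fun i hi => (Finset.mem_filter.1 hi).2.2, fun D hD => ?_⟩
  · rw [Finset.mem_filter]
    exact ⟨Finset.mem_univ _, hvw.1.symm, by rw [← hy']; exact p2⟩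
  · have hle := h.le D hD
    obtain ⟨A, hA⟩ : ∃ A, A = D.filter fun i => i ≠ v ∧ y i = ν := ⟨_, rfl⟩
    obtain ⟨B, hB⟩ : ∃ B, B = D.filter fun i => i ≠ v ∧ y i = y' := ⟨_, rfl⟩
    have hν := h.pos
    have hdis : Disjoint A B := by
      rw [Finset.disjoint_left, hA, hB]
      intro i hi hi'
      have h2 := (Finset.mem_filter.1 hi).2.2
      have h3 := (Finset.mem_filter.1 hi').2.2
      omega
    have hT : Finset.univ.filter (fun i => i ≠ v ∧ y i ≠ 0) ∩ D = A ∪ B := by
      ext i
      simp only [Finset.mem_inter, Finset.mem_filter, Finset.mem_univ, true_and, Finset.mem_union,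
        hA, hB]
      constructor
      · rintro ⟨⟨h2, h3⟩, h4⟩
        rcases h1 i h2 h3 with h5 | h5
        · exact Or.inl ⟨h4, h2, h5⟩
        · exact Or.inr ⟨h4, h2, h5⟩
      · rintro (⟨h2, h3, h4⟩ | ⟨h2, h3, h4⟩)
        · exact ⟨⟨h3, by omega⟩, h2⟩
        · exact ⟨⟨h3, by omega⟩, h2⟩
    have hcard : (Finset.univ.filter (fun i => i ≠ v ∧ y i ≠ 0) ∩ D).card = A.card + B.card := by
      rw [hT, Finset.card_union_of_disjoint hdis]
    have hsum : ∑ i ∈ D, y i = A.card * ν + B.card * y' + (if v ∈ D then y v else 0) := by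
      have h2 : ∑ i ∈ D, y i = ∑ i ∈ D.filter (fun i => i ≠ v), y i +
          ∑ i ∈ D.filter (fun i => ¬ i ≠ v), y i := (Finset.sum_filter_add_sum_filter_not _ _ _).symm
      have h3 : ∑ i ∈ D.filter (fun i => ¬ i ≠ v), y i = if v ∈ D then y v else 0 := by
        have h4 : D.filter (fun i => ¬ i ≠ v) = D.filter (fun i => i = v) := by
          ext i; simp
        rw [h4, Finset.filter_eq' D v]
        split_ifs
        · rw [Finset.sum_singleton]
        · rw [Finset.sum_empty]
      have h4 : ∑ i ∈ D.filter (fun i => i ≠ v), y i = ∑ i ∈ A ∪ B, y i := by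
        symm
        refine Finset.sum_subset ?_ ?_
        · intro i hi
          rw [← hT] at hi
          have h5 := Finset.mem_inter.1 hi
          exact Finset.mem_filter.2 ⟨h5.2, (Finset.mem_filter.1 h5.1).2.1⟩
        · intro i hi hi'
          by_contra h5
          apply hi'
          rw [← hT]
          have h6 := Finset.mem_filter.1 hi
          exact Finset.mem_inter.2 ⟨Finset.mem_filter.2 ⟨Finset.mem_univ _, h6.2, h5⟩, h6.1⟩
      have h5 : ∑ i ∈ A, y i = A.card * ν := by
        rw [← smul_eq_mul, ← Finset.sum_const]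
        exact Finset.sum_congr rfl fun i hi => by
          rw [hA] at hi; exact (Finset.mem_filter.1 hi).2.2
      have h6 : ∑ i ∈ B, y i = B.card * y' := by
        rw [← smul_eq_mul, ← Finset.sum_const]
        exact Finset.sum_congr rfl fun i hi => by
          rw [hB] at hi; exact (Finset.mem_filter.1 hi).2.2
      rw [h2, h3, h4, Finset.sum_union hdis, h5, h6]
    rw [hcard]
    have hABle : A.card + B.card ≤ 3 := by
      rw [← hcard]
      have h2 : Finset.univ.filter (fun i => i ≠ v ∧ y i ≠ 0) ∩ D ⊆ Finset.univ.erase v := by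
        intro i hi
        exact Finset.mem_erase.2 ⟨(Finset.mem_filter.1 (Finset.mem_inter.1 hi).1).2.1,
          Finset.mem_univ _⟩
      have h3 := Finset.card_le_card h2
      rw [Finset.card_erase_of_mem (Finset.mem_univ _), Finset.card_univ] at h3
      have := h.four
      omega
    by_cases hv : v ∈ D
    · rw [if_pos hv] at hsum
      rw [hsum] at hle ⊢
      generalize A.card = a at *
      generalize B.card = b at *
      rcases Nat.eq_zero_or_pos b with hb | hb
      · subst hb
        rcases Nat.eq_zero_or_pos a with ha | ha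
        · subst ha; omega
        · obtain ⟨a', rfl⟩ : ∃ a', a = a' + 1 := ⟨a - 1, by omega⟩
          have : a' ≤ a' * ν := Nat.le_mul_of_pos_right _ hν
          rw [add_mul]
          omega
      · obtain ⟨b', rfl⟩ : ∃ b', b = b' + 1 := ⟨b - 1, by omega⟩
        have h2 : a ≤ a * ν := Nat.le_mul_of_pos_right _ hν
        have h3 : b' ≤ b' * y' := Nat.le_mul_of_pos_right _ (by omega)
        rw [add_mul b' 1 y']
        omega
    · rw [if_neg hv] at hsum
      have hABcard : A.card = 0 → B.card ≠ 0 ∧ B.card ≠ 1 ∧ (B.card = 2 → ν + 1 ≤ 2 * y') ∧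
          B.card ≠ 3 := by
        intro hA0
        rw [hA0] at hsum
        refine ⟨fun hb => ?_, fun hb => ?_, fun hb => ?_, fun hb => ?_⟩
        · rw [hb] at hsum; omega
        · rw [hb] at hsum; omega
        · by_contra hcon
          have h2 : ∑ i ∈ D, y i = ν := by rw [hb] at hsum; omega
          have h3 := h.tight_card hD h2
          obtain ⟨i, j, hij, hBij⟩ := Finset.card_eq_two.1 hb
          have h4 : B = D := by
            refine Finset.eq_of_subset_of_card_le ?_ (by rw [hb]; exact h3)
            rw [hB]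
            exact Finset.filter_subset _ _
          have hi : i ∈ B := by rw [hBij]; simp
          have hj : j ∈ B := by rw [hBij]; simp
          rw [hB] at hi hj
          have hi' := (Finset.mem_filter.1 hi).2
          have hj' := (Finset.mem_filter.1 hj).2
          have h5 : Edge 𝒟 y ν i j := by
            refine ⟨hij, ?_, ?_, by omega, by omega⟩
            · rw [← hBij, h4]; exact hD
            · rw [← Finset.sum_pair hij, ← hBij, h4, h2]
          rcases hcen i j h5 with h6 | h6
          · exact hi'.1 h6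
          · exact hj'.1 h6
        · have h2 : B = Finset.univ.erase v := by
            refine Finset.eq_of_subset_of_card_le ?_ ?_
            · intro i hi
              rw [hB] at hi
              exact Finset.mem_erase.2 ⟨(Finset.mem_filter.1 hi).2.1, Finset.mem_univ _⟩
            · rw [Finset.card_erase_of_mem (Finset.mem_univ _), Finset.card_univ, hb]
              have := h.four
              omega
          have h3 : D = Finset.univ.erase v := by
            refine le_antisymm ?_ ?_
            · intro i hi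
              exact Finset.mem_erase.2 ⟨fun h4 => hv (h4 ▸ hi), Finset.mem_univ _⟩
            · rw [← h2, hB]
              exact Finset.filter_subset _ _
          have h4 : Dᶜ = {v} := by
            rw [h3]
            ext i
            simp
          have h5 := h.le _ (h.compl D hD)
          rw [h4, Finset.sum_singleton] at h5
          omega
      rw [hsum] at hle ⊢
      generalize A.card = a at *
      generalize B.card = b at *
      rcases Nat.eq_zero_or_pos a with ha | ha
      · subst ha
        obtain ⟨h2, h3, h4, h5⟩ := hABcard rfl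
        have h6 : b = 2 := by omega
        subst h6
        have := h4 rfl
        omega
      · obtain ⟨a', rfl⟩ : ∃ a', a = a' + 1 := ⟨a - 1, by omega⟩
        have h2 : a' ≤ a' * ν := Nat.le_mul_of_pos_right _ hν
        have h3 : b ≤ b * y' := Nat.le_mul_of_pos_right _ (by omega)
        rw [add_mul]
        omega

/-- The second case. -/
lemma case_two : ∃ T κ, Removable 𝒟 y ν T κ := by
  by_cases hE : ∀ i j, ¬ Edge 𝒟 y ν i j
  · exact h.no_edges hE
  · push Not at hE
    obtain ⟨v, w, hvw⟩ := hE
    by_cases hcen : ∀ i j, Edge 𝒟 y ν i j → i = v ∨ j = v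
    · exact h.star hvw hcen
    · push Not at hcen
      obtain ⟨a, b, hab, hav, hbv⟩ := hcen
      -- the edge contains `w`
      obtain ⟨u, hwu, huv⟩ : ∃ u, Edge 𝒟 y ν w u ∧ u ≠ v := by
        rcases h.meet hvw hab with h1 | h1 | h1 | h1
        · exact absurd h1 hav
        · exact ⟨b, h1 ▸ hab, hbv⟩
        · exact absurd h1 hbv
        · exact ⟨a, h1 ▸ hab.symm, hav⟩
      refine h.star hvw.symm fun i j hij => ?_
      by_contra hcon
      push Not at hcon
      obtain ⟨hiw, hjw⟩ := hcon
      have m1 := h.meet hvw hij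
      have m2 := h.meet hwu hij
      rcases m1 with h1 | h1 | h1 | h1
      · rcases m2 with h2 | h2 | h2 | h2
        · exact hiw h2
        · exact huv (h2.symm.trans h1)
        · exact hjw h2
        · exact h.no_triangle hvw (h1 ▸ h2 ▸ hij) hwu
      · exact hiw h1
      · rcases m2 with h2 | h2 | h2 | h2
        · exact hiw h2
        · exact h.no_triangle hvw (h1 ▸ h2 ▸ hij.symm) hwu
        · exact hjw h2
        · exact huv (h2.symm.trans h1)
      · exact hjw h1

end Hyp

/-- Every nonzero weight function has a removable set. -/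
theorem exists_removable (hι : Fintype.card ι ≤ 4) (hc : ∀ D ∈ 𝒟, Dᶜ ∈ 𝒟) (hom : Homog 𝒟)
    (hy : ∃ i, y i ≠ 0) (hν : ∀ D ∈ 𝒟, ν ≤ ∑ i ∈ D, y i) : ∃ T κ, Removable 𝒟 y ν T κ := by
  by_cases hcrit : ∀ i, y i ≠ 0 → ∃ D ∈ 𝒟, i ∈ D ∧ ∑ i ∈ D, y i = ν
  · obtain ⟨i, hi⟩ := hy
    obtain ⟨D, hD, hiD, hDt⟩ := hcrit i hi
    have hpos : 0 < ν := by
      have := single_le (y := y) hiD
      omega
    have h1 := compl_sum (y := y) (D := D)
    have h2 := hν _ (hc D hD)
    rcases Nat.lt_or_ge (2 * ν) (∑ i, y i) with h3 | h3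
    · exact Hyp.case_two ⟨hι, hc, hom, hpos, hν, hcrit, h3⟩
    · refine case_one hι hc hpos (fun E hE => ?_) (by omega) ⟨D, hD⟩
      have h4 := compl_sum (y := y) (D := E)
      have h5 := hν E hE
      have h6 := hν _ (hc E hE)
      omega
  · push Not at hcrit
    obtain ⟨i, hi, h1⟩ := hcrit
    exact ⟨{i}, 0, of_notCrit hν hi h1⟩

end

end Pool.Agent.W2helper27.GT
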