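import Pool.Agent.W2helper27.GT.Setup

/-!
# Alternating forms and eigenbases
-/

set_option autoImplicit false
set_option linter.unusedSectionVars false

namespace Pool.Agent.W2helper27.GT

open Module Polynomial

noncomputable section

section basis

variable {k V : Type} [Field k] [AddCommGroup V] [Module k V] [FiniteDimensional k V]

theorem charpoly_of_eig {ι : Type} [Fintype ι] [DecidableEq ι] (e : Basis ι k V)
    (T : Module.End k V) (α : ι → k) (he : ∀ x, T (e x) = α x • e x) :
    T.charpoly = ∏ x, (X - C (α x)) := by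
  rw [← LinearMap.charpoly_toMatrix T e]
  have h1 : LinearMap.toMatrix e e T = Matrix.diagonal α := by
    ext i j
    rw [LinearMap.toMatrix_apply, he, map_smul, Basis.repr_self, Finsupp.smul_apply,
      Finsupp.single_apply, Matrix.diagonal_apply, smul_eq_mul]
    split_ifs with h1 h2 h2
    · rw [mul_one, h1]
    · exact absurd h1.symm h2
    · exact absurd h2.symm h1
    · rw [mul_zero]
  rw [h1, Matrix.charpoly_diagonal]

/-- A basis of eigenvectors with prescribed labels. -/
theorem exists_eigbasis [IsAlgClosed k] (F : Module.End k V) (hF : F.IsSemisimple) {ι : Type}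
    [Fintype ι] [DecidableEq ι] (a : ι → k) (h : F.charpoly = ∏ x, (X - C (a x))) :
    ∃ e : Basis ι k V, ∀ x, F (e x) = a x • e x := by
  classical
  -- eigenvectors span
  let S : Set V := {v | ∃ μ : k, F v = μ • v}
  have hS : Submodule.span k S = ⊤ := by
    rw [eq_top_iff, ← Module.End.iSup_maxGenEigenspace_eq_top F]
    refine iSup_le fun μ => ?_
    rw [(Module.End.isFinitelySemisimple_iff_isSemisimple.mpr hF).maxGenEigenspace_eq_eigenspace]
    intro v hv
    exact Submodule.subset_span ⟨μ, Module.End.mem_eigenspace_iff.1 hv⟩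
  obtain ⟨B, hBS, hBspan, hBli⟩ := exists_linearIndependent k S
  have hBtop : ⊤ ≤ Submodule.span k (Set.range ((↑) : B → V)) := by
    rw [Subtype.range_coe, hBspan, hS]
  let b : Basis B k V := Basis.mk hBli hBtop
  have : Fintype B := FiniteDimensional.fintypeBasisIndex b
  have hb : ∀ x : B, b x = (x : V) := fun x => Basis.mk_apply hBli hBtop x
  choose lam hlam using fun x : B => hBS x.2
  have hbeig : ∀ x : B, F (b x) = lam x • b x := by
    intro x
    rw [hb]
    exact hlam x
  have h1 := charpoly_of_eig b F lam hbeig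
  rw [h] at h1
  -- the multisets of eigenvalues
  have h2 : (Finset.univ : Finset B).val.map lam = (Finset.univ : Finset ι).val.map a := by
    have h3 : ∀ {κ : Type} [Fintype κ] (f : κ → k), (∏ x, (X - C (f x))).roots =
        (Finset.univ : Finset κ).val.map f := by
      intro κ _ f
      have h4 : ∏ x, (X - C (f x)) =
          (((Finset.univ : Finset κ).val.map f).map fun t => X - C t).prod := by
        rw [Multiset.map_map]
        rfl
      rw [h4, roots_multiset_prod_X_sub_C]
    rw [← h3 lam, ← h3 a, h1]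
  have hcard : ∀ μ, Fintype.card {x : B // lam x = μ} = Fintype.card {x : ι // a x = μ} := by
    intro μ
    have h3 := congrArg (Multiset.count μ) h2
    rw [Multiset.count_map, Multiset.count_map] at h3
    rw [Fintype.card_subtype, Fintype.card_subtype]
    have h5 : ∀ {κ : Type} [Fintype κ] (f : κ → k), (Finset.univ.filter fun x => f x = μ).card =
        (Multiset.filter (fun x => μ = f x) (Finset.univ : Finset κ).val).card := by
      intro κ _ f
      have : (Finset.univ.filter fun x => f x = μ) = Finset.univ.filter fun x => μ = f x := by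
        ext x
        simp [eq_comm]
      rw [this]
      rfl
    rw [h5 lam, h5 a]
    exact h3
  let E : B ≃ ι := ((Equiv.sigmaFiberEquiv lam).symm.trans
    (Equiv.sigmaCongrRight fun μ => Fintype.equivOfCardEq (hcard μ))).trans
      (Equiv.sigmaFiberEquiv a)
  have hE : ∀ x, a (E x) = lam x := by
    intro x
    exact ((Fintype.equivOfCardEq (hcard (lam x))) ⟨x, rfl⟩).2
  refine ⟨b.reindex E, fun x => ?_⟩
  rw [Basis.reindex_apply, hbeig]
  congr 1
  rw [← hE, Equiv.apply_symm_apply]

end basis

section forms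

variable {k W : Type} [Field k] [AddCommGroup W] [Module k W] {K : Type} [Fintype K]
  [DecidableEq K] (b : Basis K k W) {i : ℕ}

/-- The product of coordinate functions. -/
def mon (φ : Fin i → K) : MultilinearMap k (fun _ : Fin i => W) k :=
  (MultilinearMap.mkPiAlgebra k (Fin i) k).compLinearMap fun l => b.coord (φ l)

lemma mon_apply (φ : Fin i → K) (v : Fin i → W) : mon b φ v = ∏ l, b.repr (v l) (φ l) := by
  rw [mon, MultilinearMap.compLinearMap_apply, MultilinearMap.mkPiAlgebra_apply]
  rfl

/-- The wedge product of coordinate functions. -/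
def amon (φ : Fin i → K) : W [⋀^Fin i]→ₗ[k] k := MultilinearMap.alternatization (mon b φ)

lemma amon_apply (φ : Fin i → K) (v : Fin i → W) : amon b φ v =
    ∑ σ : Equiv.Perm (Fin i), ((Equiv.Perm.sign σ : ℤ) : k) *
      ∏ l, b.repr (v (σ l)) (φ l) := by
  rw [amon, MultilinearMap.alternatization_apply]
  refine Finset.sum_congr rfl fun σ _ => ?_
  rw [MultilinearMap.domDomCongr_apply, mon_apply, Units.smul_def, zsmul_eq_mul]

lemma expand (f : W [⋀^Fin i]→ₗ[k] k) (v : Fin i → W) :
    f v = ∑ φ : Fin i → K, f (fun l => b (φ l)) * mon b φ v := by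
  have h1 : f v = f.toMultilinearMap (fun l => ∑ x, b.repr (v l) x • b x) := by
    change f.toMultilinearMap v = _
    refine congrArg _ (funext fun l => ?_)
    exact (b.sum_repr (v l)).symm
  rw [h1, MultilinearMap.map_sum]
  refine Finset.sum_congr rfl fun φ _ => ?_
  rw [MultilinearMap.map_smul_univ, mon_apply, smul_eq_mul, mul_comm]
  rfl

lemma ext_basis {f f' : W [⋀^Fin i]→ₗ[k] k}
    (h : ∀ φ : Fin i → K, f (fun l => b (φ l)) = f' (fun l => b (φ l))) : f = f' := by
  ext v
  rw [expand b f, expand b f']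
  exact Finset.sum_congr rfl fun φ _ => by rw [h]

lemma alt_sum_apply {β : Type*} (s : Finset β) (f : β → W [⋀^Fin i]→ₗ[k] k)
    (v : Fin i → W) : (∑ x ∈ s, f x) v = ∑ x ∈ s, f x v := by
  classical
  induction s using Finset.induction_on with
  | empty => simp
  | insert a s ha ih => rw [Finset.sum_insert ha, Finset.sum_insert ha, AlternatingMap.add_apply, ih]

/-- An alternating form is a combination of wedge products of coordinate functions. -/
theorem mem_span_amon [CharZero k] (f : W [⋀^Fin i]→ₗ[k] k) :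
    f ∈ Submodule.span k {g | ∃ φ : Fin i → K, f (fun l => b (φ l)) ≠ 0 ∧ g = amon b φ} := by
  have h1 : ((Fintype.card (Fin i)).factorial : k) • f =
      ∑ φ : Fin i → K, f (fun l => b (φ l)) • amon b φ := by
    ext v
    have h2 := congrArg (fun g : W [⋀^Fin i]→ₗ[k] k => g v) (AlternatingMap.coe_alternatization f)
    simp only [AlternatingMap.smul_apply, nsmul_eq_mul] at h2
    rw [AlternatingMap.smul_apply, smul_eq_mul, ← h2, MultilinearMap.alternatization_apply,
      alt_sum_apply]
    simp only [AlternatingMap.smul_apply, smul_eq_mul, amon_apply, Finset.mul_sum]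
    rw [Finset.sum_comm]
    refine Finset.sum_congr rfl fun σ _ => ?_
    rw [MultilinearMap.domDomCongr_apply, Units.smul_def, zsmul_eq_mul]
    change _ * f (fun l => v (σ l)) = _
    rw [expand b f, Finset.mul_sum]
    refine Finset.sum_congr rfl fun φ _ => ?_
    rw [mon_apply]
    ring
  have h0 : ((Fintype.card (Fin i)).factorial : k) ≠ 0 :=
    Nat.cast_ne_zero.2 (Nat.factorial_ne_zero _)
  have h2 : f = ((Fintype.card (Fin i)).factorial : k)⁻¹ •
      ∑ φ : Fin i → K, f (fun l => b (φ l)) • amon b φ := by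
    rw [← h1, smul_smul, inv_mul_cancel₀ h0, one_smul]
  rw [h2]
  refine Submodule.smul_mem _ _ (Submodule.sum_mem _ fun φ _ => ?_)
  by_cases h3 : f (fun l => b (φ l)) = 0
  · rw [h3, zero_smul]
    exact Submodule.zero_mem _
  · refine Submodule.smul_mem _ _ (Submodule.subset_span ⟨φ, ?_, rfl⟩)
    rw [← h2]
    exact h3

/-- The pull-back operator. -/
def pullL (i : ℕ) (G : Module.End k W) : Module.End k (W [⋀^Fin i]→ₗ[k] k) where
  toFun f := f.compLinearMap G
  map_add' _ _ := rfl
  map_smul' _ _ := rfl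

lemma aeval_mem_of {M : Type} [AddCommGroup M] [Module k M] (T : Module.End k M)
    {U : Submodule k M} (hU : ∀ u ∈ U, T u ∈ U) (Q : k[X]) {u : M} (hu : u ∈ U) :
    aeval T Q u ∈ U := by
  have hpow : ∀ (m : ℕ) (u : M), u ∈ U → (T ^ m) u ∈ U := by
    intro m
    induction m with
    | zero => intro u hu; simpa using hu
    | succ m ih =>
      intro u hu
      rw [pow_succ, Module.End.mul_apply]
      exact ih _ (hU u hu)
  induction Q using Polynomial.induction_on' with
  | add P Q hP hQ =>
    rw [map_add, LinearMap.add_apply]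
    exact U.add_mem hP hQ
  | monomial m c =>
    rw [aeval_monomial, Module.End.mul_apply, Module.algebraMap_end_apply]
    exact U.smul_mem _ (hpow m u hu)

variable {b}

lemma diag_aeval {T : Module.End k (W [⋀^Fin i]→ₗ[k] k)} {Λ : (Fin i → K) → k}
    (hT : ∀ f φ, T f (fun l => b (φ l)) = Λ φ * f (fun l => b (φ l))) (Q : k[X])
    (f : W [⋀^Fin i]→ₗ[k] k) (φ : Fin i → K) :
    aeval T Q f (fun l => b (φ l)) = Q.eval (Λ φ) * f (fun l => b (φ l)) := by
  have hpow : ∀ (m : ℕ) (f : W [⋀^Fin i]→ₗ[k] k),
      (T ^ m) f (fun l => b (φ l)) = Λ φ ^ m * f (fun l => b (φ l)) := by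
    intro m
    induction m with
    | zero => intro f; simp
    | succ m ih =>
      intro f
      rw [pow_succ, Module.End.mul_apply, ih, hT, pow_succ, mul_assoc]
  induction Q using Polynomial.induction_on' with
  | add P Q hP hQ =>
    rw [map_add, LinearMap.add_apply, AlternatingMap.add_apply, hP, hQ, eval_add, add_mul]
  | monomial m c =>
    rw [aeval_monomial, Module.End.mul_apply, Module.algebraMap_end_apply,
      AlternatingMap.smul_apply, hpow, eval_monomial, smul_eq_mul, mul_assoc]

/-- The eigencomponents of an element of a stable subspace. -/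
theorem exists_eigcomp {T : Module.End k (W [⋀^Fin i]→ₗ[k] k)} {Λ : (Fin i → K) → k}
    (hT : ∀ f φ, T f (fun l => b (φ l)) = Λ φ * f (fun l => b (φ l)))
    {U : Submodule k (W [⋀^Fin i]→ₗ[k] k)} (hU : ∀ u ∈ U, T u ∈ U) {f : W [⋀^Fin i]→ₗ[k] k}
    (hf : f ∈ U) {φ₀ : Fin i → K} (h0 : f (fun l => b (φ₀ l)) ≠ 0) :
    ∃ f' ∈ U, f' ≠ 0 ∧ T f' = Λ φ₀ • f' := by
  classical
  let s : Finset k := (Finset.univ.image Λ).erase (Λ φ₀)
  let Q : k[X] := ∏ β ∈ s, (C (Λ φ₀ - β)⁻¹ * (X - C β))
  have hQ0 : Q.eval (Λ φ₀) = 1 := by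
    rw [eval_prod]
    refine Finset.prod_eq_one fun β hβ => ?_
    rw [eval_mul, eval_C, eval_sub, eval_X, eval_C,
      inv_mul_cancel₀ (sub_ne_zero.2 (Finset.ne_of_mem_erase hβ).symm)]
  have hQ : ∀ φ, Λ φ ≠ Λ φ₀ → Q.eval (Λ φ) = 0 := by
    intro φ hφ
    rw [eval_prod]
    refine Finset.prod_eq_zero (Finset.mem_erase.2
      ⟨hφ, Finset.mem_image_of_mem Λ (Finset.mem_univ φ)⟩) ?_
    simp
  refine ⟨aeval T Q f, aeval_mem_of T hU Q hf, ?_, ?_⟩
  · intro h
    have h1 := diag_aeval hT Q f φ₀
    rw [h, hQ0, one_mul] at h1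
    exact h0 h1.symm
  · apply ext_basis b
    intro φ
    rw [hT, AlternatingMap.smul_apply, smul_eq_mul, diag_aeval hT]
    by_cases hφ : Λ φ = Λ φ₀
    · rw [hφ]
    · rw [hQ φ hφ, zero_mul, mul_zero, mul_zero]

lemma pow_eig' {G : Module.End k W} {a : K → k} (hG : ∀ x, G (b x) = a x • b x) (s : ℕ) (x : K) :
    (G ^ s) (b x) = a x ^ s • b x := by
  induction s with
  | zero => simp
  | succ s ih => rw [pow_succ, Module.End.mul_apply, hG, map_smul, ih, smul_smul, pow_succ,
      mul_comm]

lemma pull_diag {G : Module.End k W} {a : K → k} (hG : ∀ x, G (b x) = a x • b x) (s : ℕ)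
    (f : W [⋀^Fin i]→ₗ[k] k) (φ : Fin i → K) :
    pullL i (G ^ s) f (fun l => b (φ l)) = (∏ l, a (φ l) ^ s) * f (fun l => b (φ l)) := by
  change f.toMultilinearMap (fun l => (G ^ s) (b (φ l))) = _
  have h1 : (fun l => (G ^ s) (b (φ l))) = fun l => (a (φ l) ^ s) • b (φ l) := by
    funext l
    exact pow_eig' hG s (φ l)
  rw [h1, MultilinearMap.map_smul_univ, smul_eq_mul]
  rfl

end forms

end

end Pool.Agent.W2helper27.GT
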