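import Pool.Agent.W2helper27.GT.Forms

/-!
# Products of pull-backs
-/

set_option autoImplicit false
set_option linter.unusedSectionVars false

namespace Pool.Agent.W2helper27.GT

open Module Polynomial

noncomputable section

lemma sign_sigma_single {ι : Type} [Fintype ι] [DecidableEq ι] {β : ι → Type}
    [∀ s, Fintype (β s)] [∀ s, DecidableEq (β s)] (s₀ : ι) (τ : Equiv.Perm (β s₀)) :
    Equiv.Perm.sign (Equiv.Perm.sigmaCongrRight (Pi.mulSingle s₀ τ : ∀ s, Equiv.Perm (β s))) =
      Equiv.Perm.sign τ := by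
  symm
  refine Equiv.Perm.sign_bij (fun x _ => (⟨s₀, x⟩ : Σ s, β s)) ?_ ?_ ?_
  · intro x _ _
    change (⟨s₀, τ x⟩ : Σ s, β s) = ⟨s₀, (Pi.mulSingle s₀ τ : ∀ s, Equiv.Perm (β s)) s₀ x⟩
    rw [Pi.mulSingle_eq_same]
  · intro x₁ x₂ _ _ h
    exact eq_of_heq (Sigma.mk.inj h).2
  · rintro ⟨s, j⟩ hy
    by_cases hs : s = s₀
    · subst hs
      refine ⟨j, fun h => hy ?_, rfl⟩
      change (⟨s, (Pi.mulSingle s τ : ∀ s, Equiv.Perm (β s)) s j⟩ : Σ s, β s) = ⟨s, j⟩
      rw [Pi.mulSingle_eq_same, h]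
    · refine absurd ?_ hy
      change (⟨s, (Pi.mulSingle s₀ τ : ∀ s, Equiv.Perm (β s)) s j⟩ : Σ s, β s) = ⟨s, j⟩
      rw [Pi.mulSingle_eq_of_ne hs]
      rfl

lemma sign_sigma {ι : Type} [Fintype ι] [DecidableEq ι] {β : ι → Type}
    [∀ s, Fintype (β s)] [∀ s, DecidableEq (β s)] (q : ∀ s, Equiv.Perm (β s)) :
    Equiv.Perm.sign (Equiv.Perm.sigmaCongrRight q) = ∏ s, Equiv.Perm.sign (q s) := by
  have key : ∀ (T : Finset ι) (q : ∀ s, Equiv.Perm (β s)), (∀ s, s ∉ T → q s = 1) →
      Equiv.Perm.sign (Equiv.Perm.sigmaCongrRight q) = ∏ s ∈ T, Equiv.Perm.sign (q s) := by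
    intro T
    induction T using Finset.induction_on with
    | empty =>
      intro q hq
      have : q = 1 := funext fun s => hq s (Finset.notMem_empty s)
      rw [this, Finset.prod_empty]
      exact Equiv.Perm.sign_one
    | insert s₀ T hs₀ ih =>
      intro q hq
      have h1 : q = Pi.mulSingle s₀ (q s₀) * Function.update q s₀ 1 := by
        funext s
        by_cases hs : s = s₀
        · subst hs
          rw [Pi.mul_apply, Pi.mulSingle_eq_same, Function.update_self, mul_one]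
        · rw [Pi.mul_apply, Pi.mulSingle_eq_of_ne hs, Function.update_of_ne hs, one_mul]
      have h2 : Equiv.Perm.sigmaCongrRight q =
          Equiv.Perm.sigmaCongrRight (Pi.mulSingle s₀ (q s₀) : ∀ s, Equiv.Perm (β s)) *
          Equiv.Perm.sigmaCongrRight (Function.update q s₀ 1) := by
        conv_lhs => rw [h1]
        exact ((Equiv.Perm.sigmaCongrRightHom β).map_mul _ _)
      rw [h2, Equiv.Perm.sign_mul, sign_sigma_single, Finset.prod_insert hs₀,
        ih (Function.update q s₀ 1)]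
      · congr 1
        refine Finset.prod_congr rfl fun s hs => ?_
        rw [Function.update_of_ne (fun h : s = s₀ => hs₀ (h ▸ hs))]
      · intro s hs
        by_cases h : s = s₀
        · subst h
          rw [Function.update_self]
        · rw [Function.update_of_ne h]
          exact hq s (by rw [Finset.mem_insert]; tauto)
  exact key Finset.univ q fun s hs => absurd (Finset.mem_univ s) hs


section product

variable {k V : Type} [Field k] [AddCommGroup V] [Module k V] {Y : Type} [Fintype Y]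
  [DecidableEq Y] (f : Basis Y k V) {i : ℕ} {B : Type} [Fintype B] [DecidableEq B]

/-- The product of the wedge products of the blocks. -/
theorem product_identity {W : B → Type} [∀ s, AddCommGroup (W s)] [∀ s, Module k (W s)]
    {X : B → Type} [∀ s, Fintype (X s)] [∀ s, DecidableEq (X s)] (e : ∀ s, Basis (X s) k (W s))
    (φ : Fin i → Y) (t : B → ℕ) (ψ : ∀ s, Fin (t s) → X s)
    (E : (Σ s, Fin (t s)) ≃ Fin i) (h : ∀ s, V →ₗ[k] W s)
    (hh : ∀ s j v, (e s).repr (h s v) (ψ s j) = f.repr v (φ (E ⟨s, j⟩)))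
    (v : Fin i → V) :
    ∑ σ : Equiv.Perm (Fin i), ((Equiv.Perm.sign σ : ℤ) : k) *
      ∏ s, amon (e s) (ψ s) (fun j => h s (v (σ (E ⟨s, j⟩)))) =
    (∏ s, ((t s).factorial : k)) * amon f φ v := by
  classical
  have h1 : ∀ (σ : Equiv.Perm (Fin i)) (s : B),
      amon (e s) (ψ s) (fun j => h s (v (σ (E ⟨s, j⟩)))) =
      ∑ τ : Equiv.Perm (Fin (t s)), ((Equiv.Perm.sign τ : ℤ) : k) *
        ∏ j, f.repr (v (σ (E ⟨s, τ j⟩))) (φ (E ⟨s, j⟩)) := by
    intro σ s
    rw [amon_apply]
    refine Finset.sum_congr rfl fun τ _ => ?_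
    congr 1
    exact Finset.prod_congr rfl fun j _ => hh s j _
  simp only [h1]
  have h2 : ∀ σ : Equiv.Perm (Fin i), ∏ s, ∑ τ : Equiv.Perm (Fin (t s)),
      ((Equiv.Perm.sign τ : ℤ) : k) * ∏ j, f.repr (v (σ (E ⟨s, τ j⟩))) (φ (E ⟨s, j⟩)) =
      ∑ q : (∀ s, Equiv.Perm (Fin (t s))), ∏ s, (((Equiv.Perm.sign (q s) : ℤ) : k) *
        ∏ j, f.repr (v (σ (E ⟨s, q s j⟩))) (φ (E ⟨s, j⟩))) := by
    intro σ
    rw [Finset.prod_univ_sum, Fintype.piFinset_univ]
  simp only [h2, Finset.mul_sum]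
  rw [Finset.sum_comm]
  have h3 : ∀ q : (∀ s, Equiv.Perm (Fin (t s))),
      ∑ σ : Equiv.Perm (Fin i), ((Equiv.Perm.sign σ : ℤ) : k) *
        ∏ s, (((Equiv.Perm.sign (q s) : ℤ) : k) *
        ∏ j, f.repr (v (σ (E ⟨s, q s j⟩))) (φ (E ⟨s, j⟩))) = amon f φ v := by
    intro q
    let π : Equiv.Perm (Fin i) := E.permCongr (Equiv.Perm.sigmaCongrRight q)
    have hπ : ∀ s j, π (E ⟨s, j⟩) = E ⟨s, q s j⟩ := by
      intro s j
      change E (Equiv.Perm.sigmaCongrRight q (E.symm (E ⟨s, j⟩))) = _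
      rw [Equiv.symm_apply_apply]
      rfl
    have hsign : Equiv.Perm.sign π = ∏ s, Equiv.Perm.sign (q s) := by
      rw [Equiv.Perm.sign_permCongr, sign_sigma]
    rw [amon_apply]
    refine Fintype.sum_equiv (Equiv.mulRight π) _ _ fun σ => ?_
    rw [Equiv.coe_mulRight, Equiv.Perm.sign_mul, hsign, Finset.prod_mul_distrib]
    have h4 : ∏ l, f.repr (v ((σ * π) l)) (φ l) =
        ∏ s, ∏ j, f.repr (v (σ (E ⟨s, q s j⟩))) (φ (E ⟨s, j⟩)) := by
      rw [← Equiv.prod_comp E, Fintype.prod_sigma]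
      refine Finset.prod_congr rfl fun s _ => Finset.prod_congr rfl fun j _ => ?_
      rw [Equiv.Perm.mul_apply, hπ]
    rw [h4]
    push_cast
    ring
  rw [Finset.sum_congr rfl fun q _ => h3 q, Finset.sum_const, nsmul_eq_mul]
  congr 1
  rw [Finset.card_univ, Fintype.card_pi]
  push_cast
  refine Finset.prod_congr rfl fun s _ => ?_
  rw [Fintype.card_perm, Fintype.card_fin]

variable {f}

section onehom

variable {W : Type} [AddCommGroup W] [Module k W] {X : Type} [Fintype X] [DecidableEq X]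
  {e : Basis X k W}

lemma repr_eig {G : Module.End k W} {a : X → k} (he : ∀ x, G (e x) = a x • e x) (w : W) (x : X) :
    e.repr (G w) x = a x * e.repr w x := by
  conv_lhs => rw [← e.sum_repr w]
  rw [map_sum, map_sum, Finsupp.finsetSum_apply, Finset.sum_eq_single x]
  · rw [map_smul, he, map_smul, map_smul, Basis.repr_self, Finsupp.smul_apply,
      Finsupp.smul_apply, Finsupp.single_eq_same, smul_eq_mul, smul_eq_mul, mul_one, mul_comm]
  · intro y _ hy
    rw [map_smul, he, map_smul, map_smul, Basis.repr_self, Finsupp.smul_apply,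
      Finsupp.smul_apply, Finsupp.single_eq_of_ne (Ne.symm hy), smul_zero, smul_zero]
  · intro h
    exact absurd (Finset.mem_univ _) h

/-- The homomorphism of a block. -/
lemma exists_hom {G : Module.End k W} {a : X → k} (he : ∀ x, G (e x) = a x • e x)
    {H : Module.End k V} {a' : Y → k} (hf : ∀ y, H (f y) = a' y • f y) {t : ℕ}
    (φ : Fin t → Y) (ψ : Fin t → X) (hψ : Function.Injective ψ)
    (haa : ∀ l, a' (φ l) = a (ψ l)) : ∃ h : V →ₗ[k] W, (∀ v, h (H v) = G (h v)) ∧
      ∀ l v, e.repr (h v) (ψ l) = f.repr v (φ l) := by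
  let h : V →ₗ[k] W := ∑ l, (LinearMap.toSpanSingleton k W (e (ψ l))).comp (f.coord (φ l))
  have happ : ∀ v, h v = ∑ l, f.repr v (φ l) • e (ψ l) := by
    intro v
    change (∑ l, (LinearMap.toSpanSingleton k W (e (ψ l))).comp (f.coord (φ l))) v = _
    rw [LinearMap.sum_apply]
    rfl
  refine ⟨h, fun v => ?_, fun l v => ?_⟩
  · rw [happ, happ, map_sum]
    refine Finset.sum_congr rfl fun l _ => ?_
    rw [repr_eig hf, map_smul, he, smul_smul, haa, mul_comm]
  · rw [happ, map_sum, Finsupp.finsetSum_apply, Finset.sum_eq_single l]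
    · rw [map_smul, Basis.repr_self, Finsupp.smul_apply, Finsupp.single_eq_same, smul_eq_mul,
        mul_one]
    · intro l' _ hne
      rw [map_smul, Basis.repr_self, Finsupp.smul_apply, Finsupp.single_apply, if_neg, smul_zero]
      exact fun h => hne (hψ h)
    · intro h
      exact absurd (Finset.mem_univ l) h

/-- The class of a block generates an effective line. -/
lemma eff_amon {G : Module.End k W} {a : X → k} (he : ∀ x, G (e x) = a x • e x) {q t c : ℕ}
    (z : Fin t → X) (h1 : IsIntegral ℤ ((∏ j, a (z j)) / (q : k) ^ c))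
    (h2 : IsIntegral ℤ ((q : k) ^ t / ((q : k) ^ c * ∏ j, a (z j)))) :
    IsEffective q G t c (Submodule.span k {amon e z}) := by
  have heig : (amon e z).compLinearMap G = (∏ j, a (z j)) • amon e z := by
    ext v
    rw [AlternatingMap.compLinearMap_apply, AlternatingMap.smul_apply, amon_apply, amon_apply,
      smul_eq_mul, Finset.mul_sum]
    refine Finset.sum_congr rfl fun σ _ => ?_
    have h3 : ∏ l, e.repr (G (v (σ l))) (z l) =
        (∏ j, a (z j)) * ∏ l, e.repr (v (σ l)) (z l) := by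
      rw [← Finset.prod_mul_distrib]
      refine Finset.prod_congr rfl fun l _ => ?_
      rw [repr_eig he]
    rw [h3]
    ring
  refine ⟨fun f hf => ?_, fun β f hf hf0 hβ => ?_⟩
  · obtain ⟨c', rfl⟩ := Submodule.mem_span_singleton.1 hf
    have h3 : (c' • amon e z).compLinearMap G = c' • (amon e z).compLinearMap G := rfl
    rw [h3, heig]
    exact Submodule.smul_mem _ _ (Submodule.smul_mem _ _ (Submodule.mem_span_singleton_self _))
  · obtain ⟨c', rfl⟩ := Submodule.mem_span_singleton.1 hf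
    have h3 : (c' • amon e z).compLinearMap G = c' • (amon e z).compLinearMap G := rfl
    have hβ' : β = ∏ j, a (z j) := by
      rw [h3, heig, smul_comm] at hβ
      by_contra hne
      refine hf0 ?_
      ext v
      have h4 : (∏ j, a (z j)) * (c' • amon e z) v = β * (c' • amon e z) v := by
        have h5 := congrArg (fun f => f v) hβ
        simp only [AlternatingMap.smul_apply, smul_eq_mul] at h5 ⊢
        linear_combination h5
      have h5 : (β - ∏ j, a (z j)) * (c' • amon e z) v = 0 := by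
        rw [sub_mul, h4, sub_self]
      rcases mul_eq_zero.1 h5 with h6 | h6
      · exact absurd (sub_eq_zero.1 h6) hne
      · exact h6
    rw [hβ']
    exact ⟨h1, h2⟩

end onehom

section several

variable {J : Type} {W : J → Type} [∀ j, AddCommGroup (W j)] [∀ j, Module k (W j)]
  {G : ∀ j, Module.End k (W j)} {N : ∀ j, ∀ t : ℕ, ℕ → Submodule k (W j [⋀^Fin t]→ₗ[k] k)}
  {H : Module.End k V}

/-- Products whose factors are indexed by a finite type. -/
lemma mem_products_of {ν : ℕ} {F : V [⋀^Fin i]→ₗ[k] k} (j : B → J) (t c : B → ℕ)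
    (E : (Σ b, Fin (t b)) ≃ Fin i) (h : ∀ b, V →ₗ[k] W (j b))
    (φ : ∀ b, W (j b) [⋀^Fin (t b)]→ₗ[k] k) (hν : ν ≤ ∑ b, c b)
    (hh : ∀ b v, h b (H v) = G (j b) (h b v)) (hφ : ∀ b, φ b ∈ N (j b) (t b) (c b))
    (hF : ∀ v : Fin i → V, F v = ∑ σ : Equiv.Perm (Fin i), ((Equiv.Perm.sign σ : ℤ) : k) *
      ∏ b, φ b (fun l => h b (v (σ (E ⟨b, l⟩))))) : F ∈ products G N H i ν := by
  let q : Fin (Fintype.card B) ≃ B := (Fintype.equivFin B).symm
  refine ⟨Fintype.card B, fun b => j (q b), fun b => t (q b), fun b => c (q b),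
    (Equiv.sigmaCongrLeft (β := fun b => Fin (t b)) q).trans E, fun b => h (q b),
    fun b => φ (q b), ?_, fun b v => hh (q b) v, fun b => hφ (q b), fun v => ?_⟩
  · rw [Equiv.sum_comp q c]
    exact hν
  · rw [hF]
    refine Finset.sum_congr rfl fun σ _ => ?_
    congr 1
    exact (Equiv.prod_comp q fun b => φ b (fun l => h b (v (σ (E ⟨b, l⟩))))).symm

/-- The classes of the blocks generate. -/
theorem mem_products [CharZero k] {X : J → Type} [∀ j, Fintype (X j)] [∀ j, DecidableEq (X j)]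
    {e : ∀ j, Basis (X j) k (W j)} {a : ∀ j, X j → k}
    (he : ∀ j x, G j (e j x) = a j x • e j x) {a' : Y → k} (hf : ∀ y, H (f y) = a' y • f y)
    (φ : Fin i → Y) (j : B → J) (t c : B → ℕ) (E : (Σ s, Fin (t s)) ≃ Fin i)
    (ψ : ∀ s, Fin (t s) → X (j s)) (hψ : ∀ s, Function.Injective (ψ s))
    (haa : ∀ s l, a' (φ (E ⟨s, l⟩)) = a (j s) (ψ s l)) {ν : ℕ} (hν : ν ≤ ∑ s, c s)
    (hN : ∀ s, amon (e (j s)) (ψ s) ∈ N (j s) (t s) (c s)) :
    amon f φ ∈ Submodule.span k (products G N H i ν) := by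
  choose h hh1 hh2 using fun s : B => exists_hom (he (j s)) hf (fun l => φ (E ⟨s, l⟩)) (ψ s)
    (hψ s) (haa s)
  have hprod : (∏ s, ((t s).factorial : k)) • amon f φ ∈ products G N H i ν := by
    refine mem_products_of j t c E h (fun s => amon (e (j s)) (ψ s)) hν hh1 hN fun v => ?_
    rw [product_identity f (fun s => e (j s)) φ t ψ E h hh2 v]
    rfl
  have hne : (∏ s, ((t s).factorial : k)) ≠ 0 :=
    Finset.prod_ne_zero_iff.2 fun s _ => Nat.cast_ne_zero.2 (Nat.factorial_ne_zero _)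
  have h1 : amon f φ = (∏ s, ((t s).factorial : k))⁻¹ •
      ((∏ s, ((t s).factorial : k)) • amon f φ) := by
    rw [smul_smul, inv_mul_cancel₀ hne, one_smul]
  rw [h1]
  exact Submodule.smul_mem _ _ (Submodule.subset_span hprod)

/-- The basis of the product of powers. -/
def pbs {J : Type} [Fintype J] {W : J → Type} [∀ j, AddCommGroup (W j)] [∀ j, Module k (W j)]
    {X : J → Type} [∀ j, Fintype (X j)] [∀ j, DecidableEq (X j)] (e : ∀ j, Basis (X j) k (W j))
    (n : J → ℕ) : Basis (Σ j, Σ _ : Fin (n j), X j) k (∀ j, Fin (n j) → W j) :=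
  Pi.basis fun j => Pi.basis fun _ : Fin (n j) => e j

lemma frob_pbs {J : Type} [Fintype J] [DecidableEq J] {W : J → Type} [∀ j, AddCommGroup (W j)]
    [∀ j, Module k (W j)] {G : ∀ j, Module.End k (W j)}
    {X : J → Type} [∀ j, Fintype (X j)] [∀ j, DecidableEq (X j)] {e : ∀ j, Basis (X j) k (W j)}
    {n : J → ℕ} {a : ∀ j, X j → k} (he : ∀ j x, G j (e j x) = a j x • e j x)
    (y : Σ j, Σ _ : Fin (n j), X j) : frob G n (pbs e n y) = a y.1 y.2.2 • pbs e n y := by
  obtain ⟨j, m, x⟩ := y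
  rw [pbs, Pi.basis_apply, Pi.basis_apply]
  funext j' m'
  change G j' ((Pi.single j (Pi.single m (e j x)) : ∀ j, Fin (n j) → W j) j' m') =
    a j x • ((Pi.single j (Pi.single m (e j x)) : ∀ j, Fin (n j) → W j) j' m')
  by_cases h : j' = j
  · subst h
    rw [Pi.single_eq_same]
    by_cases h' : m' = m
    · subst h'
      rw [Pi.single_eq_same, he]
    · rw [Pi.single_eq_of_ne h', map_zero, smul_zero]
  · rw [Pi.single_eq_of_ne h, Pi.zero_apply, map_zero, smul_zero]

end several

end product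

end

end Pool.Agent.W2helper27.GT
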