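import Pool.Agent.W2helper27.GT.Arith
import Pool.Agent.W2helper27.GT.Prod

/-!
# Products of powers of ordinary abelian varieties of dimension at most four
-/

set_option autoImplicit false
set_option linter.unusedSectionVars false

namespace Pool.Agent.W2helper27.GT

open Module Polynomial

noncomputable section

section single

variable {k V : Type} [Field k] [IsAlgClosed k] [CharZero k] [AddCommGroup V] [Module k V]
  [FiniteDimensional k V] {p a : ℕ} [hp : Fact p.Prime]

lemma roots_charpoly {F : Module.End k V} {P : ℤ[X]} (hPF : F.charpoly = P.map (Int.castRingHom k))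
    {X' : Type} [Fintype X'] {α' : X' → Qb}
    (hα' : P.map (Int.castRingHom Qb) = ((Finset.univ.val.map α').map fun z => X - C z).prod)
    (ι : Qb →+* k) : F.charpoly = ∏ x, (X - C (ι (α' x))) := by
  have h1 : P.map (Int.castRingHom k) = (P.map (Int.castRingHom Qb)).map ι := by
    rw [Polynomial.map_map]
    congr 1
    exact RingHom.ext_int _ _
  rw [hPF, h1, hα', Multiset.map_map, Polynomial.map_multiset_prod, Multiset.map_map]
  change (Multiset.map _ (Finset.univ : Finset X').val).prod =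
    (Multiset.map _ (Finset.univ : Finset X').val).prod
  congr 1
  refine Multiset.map_congr rfl fun x _ => ?_
  simp

lemma int_emb_iff {M : Type} [Field M] (ι : Qb →+* M) (w : Qb) :
    IsIntegral ℤ (ι w) ↔ IsIntegral ℤ w :=
  isIntegral_algHom_iff ι.toIntAlgHom ι.injective

omit [FiniteDimensional k V] in
/-- Effective subspaces are spanned by effective products of coordinate functions. -/
lemma le_span_of_eff {X' : Type} [Fintype X'] [DecidableEq X'] {G : Module.End k V}
    {f : Basis X' k V} {α' : X' → Qb} {ι : Qb →+* k} (hf : ∀ x, G (f x) = ι (α' x) • f x)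
    {i ν s : ℕ} (hs : 0 < s) {U : Submodule k (V [⋀^Fin i]→ₗ[k] k)}
    (hU : IsEffective ((p ^ a) ^ s) (G ^ s) i ν U) {M : Submodule k (V [⋀^Fin i]→ₗ[k] k)}
    (hM : ∀ φ : Fin i → X', IsIntegral ℤ ((∏ l, α' (φ l)) / ((p : Qb) ^ a) ^ ν) → amon f φ ∈ M) :
    U ≤ M := by
  obtain ⟨hUs, hUe⟩ := hU
  intro u hu
  refine Submodule.span_le.2 ?_ (mem_span_amon f u)
  rintro _ ⟨φ, hφ, rfl⟩
  obtain ⟨f', hf'U, hf'0, hf'⟩ := exists_eigcomp (b := f) (T := pullL i (G ^ s))
    (Λ := fun φ => ∏ l, ι (α' (φ l)) ^ s) (fun u φ => pull_diag (b := f) hf s u φ) hUs hu hφ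
  have hint := (hUe _ f' hf'U hf'0 hf').1
  apply hM
  rw [← int_emb_iff ι]
  refine IsIntegral.of_pow hs ?_
  convert hint using 1
  rw [map_div₀, map_prod, map_pow, map_pow, map_natCast, div_pow, ← Finset.prod_pow,
    ← pow_mul ((p : k) ^ a) ν s, Nat.cast_pow, Nat.cast_pow, mul_comm ν s,
    pow_mul ((p : k) ^ a) s ν]

/-- The class of a block on an ordinary abelian variety is effective. -/
lemma block_mem {g : ℕ} {P : ℤ[X]} (hP : IsOrdinaryWeil p a g P) (ha : 0 < a)
    {F : Module.End k V} {N : ∀ t : ℕ, ℕ → Submodule k (V [⋀^Fin t]→ₗ[k] k)}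
    (hN : GTC (p ^ a) F N) {α' : Fin g ⊕ Fin g → Qb}
    (hα' : (Finset.univ : Finset (Fin g ⊕ Fin g)).val.map α' = rts P)
    (hαα' : ∀ x, α' x * α' x.swap = (p : Qb) ^ a) {ι : Qb →+* k}
    {e : Basis (Fin g ⊕ Fin g) k V} (he : ∀ x, F (e x) = ι (α' x) • e x) {t m : ℕ}
    (ψ : Fin t → Fin g ⊕ Fin g)
    (hA : ∀ T ∈ typesOf p α', m ≤ (Finset.univ.filter fun j => ψ j ∈ T).card) :
    amon e ψ ∈ N t m := by
  have hA' := (integral_iff hP ha hα' hαα' Finset.univ ψ m).2 hA
  have hB' : IsIntegral ℤ (((p : Qb) ^ a) ^ t / (((p : Qb) ^ a) ^ m * ∏ j, α' (ψ j))) := by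
    obtain ⟨τ, hτ⟩ := exists_cc hP
    have h1 : IsIntegral ℤ (τ ((∏ j, α' (ψ j)) / ((p : Qb) ^ a) ^ m)) :=
      (int_emb_iff τ _).2 hA'
    convert h1 using 1
    rw [map_div₀, map_prod, map_pow, map_pow, map_natCast,
      Finset.prod_congr rfl fun j _ => hτ _ (mem_rts hα' (ψ j)),
      Finset.prod_div_distrib, Finset.prod_const, Finset.card_univ, Fintype.card_fin,
      div_div, mul_comm]
  have hA'' := (int_emb_iff ι _).2 hA'
  have hB'' := (int_emb_iff ι _).2 hB'
  refine hN _ _ _ (eff_amon he ψ ?_ ?_) (Submodule.mem_span_singleton_self _)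
  · convert hA'' using 1
    rw [map_div₀, map_prod, map_pow, map_pow, map_natCast, Nat.cast_pow]
  · convert hB'' using 1
    rw [map_div₀, map_mul, map_prod, map_pow ι _ t, map_pow ι _ m, map_pow, map_natCast,
      Nat.cast_pow]

end single

section several

variable {k : Type} [Field k] [IsAlgClosed k] [CharZero k] {J : Type} [Finite J] {V : J → Type}
  [∀ j, AddCommGroup (V j)] [∀ j, Module k (V j)] [∀ j, FiniteDimensional k (V j)]
  {p a : ℕ} [hp : Fact p.Prime] {g : J → ℕ}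

omit [Finite J] in
/-- The counts for the factors add up. -/
lemma le_sum_counts [Fintype J] {P : J → ℤ[X]} (hP : ∀ j, IsOrdinaryWeil p a (g j) (P j))
    (ha : 0 < a) (hind : IndependentSlopes p P) {α' : ∀ j, Fin (g j) ⊕ Fin (g j) → Qb}
    (hα' : ∀ j, (Finset.univ : Finset (Fin (g j) ⊕ Fin (g j))).val.map (α' j) = rts (P j))
    (hαα' : ∀ j x, α' j x * α' j x.swap = (p : Qb) ^ a) {κ : J → Type} [∀ j, Fintype (κ j)]
    (z : ∀ j, κ j → Fin (g j) ⊕ Fin (g j)) {ν : ℕ}
    (hint : IsIntegral ℤ ((∏ j, ∏ l, α' j (z j l)) / ((p : Qb) ^ a) ^ ν))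
    (T : ∀ j, Finset (Fin (g j) ⊕ Fin (g j))) (hT : ∀ j, T j ∈ typesOf p (α' j)) :
    ν ≤ ∑ j, (Finset.univ.filter fun l => z j l ∈ T j).card := by
  classical
  choose e he using hT
  obtain ⟨e', he'⟩ := hind e
  have hTe : ∀ j, nonunits (α' j) e' = T j := by
    intro j
    rw [← he j]
    ext x
    rw [mem_nonunits, mem_nonunits, not_iff_not]
    exact he' j _ (isRoot_of_mem_roots (mem_rts (hα' j) x))
  have h1 : ‖e' ((∏ j, ∏ l, α' j (z j l)) / ((p : Qb) ^ a) ^ ν)‖ ≤ 1 := by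
    obtain ⟨Q, hQ, hQ0⟩ := hint
    apply Pool.Agent.R940.padic_integral
    refine ⟨Q, hQ, ?_⟩
    have h2 : algebraMap ℤ (PadicAlgCl p) = e'.comp (algebraMap ℤ Qb) := RingHom.ext_int _ _
    rw [h2, ← hom_eval₂]
    exact (congrArg e' hQ0).trans (map_zero e')
  have h2 : ‖e' (∏ j, ∏ l, α' j (z j l))‖ = ‖((p : PadicAlgCl p) ^ a)‖ ^
      (∑ j, (Finset.univ.filter fun l => z j l ∈ T j).card) := by
    rw [map_prod, norm_prod, ← Finset.prod_pow_eq_pow_sum]
    refine Finset.prod_congr rfl fun j _ => ?_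
    rw [norm_prod_roots (hP j) ha (hα' j) (hαα' j), hTe]
  rw [map_div₀, norm_div, h2, map_pow, map_pow, map_natCast,
    norm_pow ((p : PadicAlgCl p) ^ a)] at h1
  have hq := norm_q_lt (p := p) ha
  have hq0 : 0 < ‖((p : PadicAlgCl p) ^ a)‖ := norm_pos_iff.2
    (pow_ne_zero _ (Nat.cast_ne_zero.2 hp.out.ne_zero))
  rw [div_le_one (by positivity)] at h1
  by_contra hcon
  exact absurd h1 (not_le.2 (pow_lt_pow_right_of_lt_one₀ hq0 hq (not_le.1 hcon)))

/-- Products of powers of ordinary abelian varieties of dimension at most four. -/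
theorem powers (hg : ∀ j, g j ≤ 4) (ha : 0 < a) {P : J → ℤ[X]} {F : ∀ j, Module.End k (V j)}
    (hF : ∀ j, IsOrdinaryFrobenius p a (g j) (P j) (F j)) (hind : IndependentSlopes p P)
    {N : ∀ j, ∀ t : ℕ, ℕ → Submodule k (V j [⋀^Fin t]→ₗ[k] k)}
    (hN : ∀ j, GTC (p ^ a) (F j) (N j)) (n : J → ℕ) (i ν s : ℕ) (hs : 0 < s)
    (U : Submodule k ((∀ j, Fin (n j) → V j) [⋀^Fin i]→ₗ[k] k))
    (hU : IsEffective ((p ^ a) ^ s) ((frob F n) ^ s) i ν U) :
    U ≤ Submodule.span k (products F N (frob F n) i ν) := by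
  classical
  have := Fintype.ofFinite J
  have hP : ∀ j, IsOrdinaryWeil p a (g j) (P j) := fun j => (hF j).ordinary
  choose α' hα' hαα' using fun j => exists_labels (hP j) ha
  obtain ⟨ι⟩ := exists_emb k
  choose e he using fun j => exists_eigbasis (F j) (hF j).semisimple (fun x => ι (α' j x))
    (roots_charpoly (hF j).charpoly (by rw [prod_rts (hP j), ← hα' j]) ι)
  refine le_span_of_eff (f := pbs e n) (α' := fun y => α' y.1 y.2.2) (ι := ι)
    (fun y => frob_pbs he y) hs hU fun φ hφ => ?_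
  -- the positions of the factors
  have hy' : ∀ j (l : {l // (φ l).1 = j}), ∃ y : (Σ _ : Fin (n j), Fin (g j) ⊕ Fin (g j)),
      φ l.1 = ⟨j, y⟩ := by
    rintro j ⟨l, rfl⟩
    exact ⟨(φ l).2, rfl⟩
  choose y hy using hy'
  have hT : ∀ j, Types (typesOf p (α' j)) := fun j =>
    types_typesOf (hP j) ha (hg j) (hα' j) (hαα' j)
  -- the numbers of the factors
  have hmin : ∀ j, ∃ T ∈ typesOf p (α' j), ∀ T' ∈ typesOf p (α' j),
      (Finset.univ.filter fun l => (y j l).2 ∈ T).card ≤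
      (Finset.univ.filter fun l => (y j l).2 ∈ T').card := by
    intro j
    have h1 : ∃ c, ∃ T ∈ typesOf p (α' j), (Finset.univ.filter fun l => (y j l).2 ∈ T).card = c := by
      obtain ⟨T, hT⟩ := (hT j).ne
      exact ⟨_, T, hT, rfl⟩
    obtain ⟨T, hT1, hT2⟩ := Nat.find_spec h1
    refine ⟨T, hT1, fun T' hT' => ?_⟩
    rw [hT2]
    exact Nat.find_min' h1 ⟨T', hT', rfl⟩
  choose T hTm hTmin using hmin
  choose r b m hbr hνm hinj hm using fun j => exists_partition (hT j) (fun l => (y j l).2)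
    Finset.univ (Finset.univ.filter fun l => (y j l).2 ∈ T j).card (hTmin j)
  have hν : ν ≤ ∑ j, (Finset.univ.filter fun l => (y j l).2 ∈ T j).card := by
    refine le_sum_counts hP ha hind hα' hαα' (fun j l => (y j l).2) ?_ T hTm
    convert hφ using 2
    rw [← Equiv.prod_comp (Equiv.sigmaFiberEquiv fun l => (φ l).1), Fintype.prod_sigma]
    refine Finset.prod_congr rfl fun j _ => Finset.prod_congr rfl fun l _ => ?_
    change α' j (y j l).2 = α' (φ l.1).1 (φ l.1).2.2
    rw [hy j l]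
  -- the blocks
  let b' : ∀ j, {l // (φ l).1 = j} → Fin (r j) := fun j l => ⟨b j l, hbr j l (Finset.mem_univ l)⟩
  let t : (Σ j, Fin (r j)) → ℕ := fun s => Fintype.card {l // b' s.1 l = s.2}
  let en : ∀ s : (Σ j, Fin (r j)), Fin (t s) ≃ {l // b' s.1 l = s.2} := fun s =>
    (Fintype.equivFin {l // b' s.1 l = s.2}).symm
  let E : (Σ s, Fin (t s)) ≃ Fin i :=
    ((Equiv.sigmaCongrRight en).trans
      ((Equiv.sigmaAssoc fun (j : J) (s : Fin (r j)) => {l // b' j l = s}).trans
        (Equiv.sigmaCongrRight fun j => Equiv.sigmaFiberEquiv (b' j)))).trans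
      (Equiv.sigmaFiberEquiv fun l => (φ l).1)
  have hE : ∀ s l, E ⟨s, l⟩ = ((en s l).1 : {l // (φ l).1 = s.1}).1 := fun s l => rfl
  refine mem_products he (fun y => frob_pbs he y) φ (fun s : (Σ j, Fin (r j)) => s.1) t
    (fun s => m s.1 s.2) E (fun s l => (y s.1 (en s l).1).2) (fun s l l' h => ?_) (fun s l => ?_)
    ?_ fun s => ?_
  · have h1 := hinj s.1 (en s l).1 (Finset.mem_univ _) (en s l').1 (Finset.mem_univ _) ?_ h
    · exact (en s).injective (Subtype.ext h1)
    · have h2 := congrArg Fin.val (en s l).2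
      have h3 := congrArg Fin.val (en s l').2
      exact h2.trans h3.symm
  · rw [hE, hy]
  · refine hν.trans ?_
    rw [Fintype.sum_sigma]
    refine Finset.sum_le_sum fun j _ => ?_
    have h1 := hνm j
    rw [Finset.sum_range] at h1
    exact h1
  · refine block_mem (hP s.1) ha (hN s.1) (hα' s.1) (hαα' s.1) (he s.1) _ fun T' hT' => ?_
    refine (hm s.1 s.2 s.2.2 T' hT').trans ?_
    refine Finset.card_le_card_of_surjOn (fun l => (en s l).1) fun l hl => ?_
    obtain ⟨-, h1, h2⟩ := Finset.mem_filter.1 (Finset.mem_coe.1 hl)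
    have h3 : b' s.1 l = s.2 := Fin.ext h1
    refine ⟨(en s).symm ⟨l, h3⟩, ?_, ?_⟩
    · refine Finset.mem_coe.2 (Finset.mem_filter.2 ⟨Finset.mem_univ _, ?_⟩)
      rw [Equiv.apply_symm_apply]
      exact h2
    · change (en s ((en s).symm ⟨l, h3⟩)).1 = l
      rw [Equiv.apply_symm_apply]

end several

end

end Pool.Agent.W2helper27.GT
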