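import Pool.Agent.W2helper27.GT.Clutter

/-!
# Partitions of families of Frobenius eigenvalues

The labels `Fin n ⊕ Fin n` stand for the `2 n` eigenvalues of an ordinary Frobenius element; `swap`
is the complex conjugation. `𝒞` is the set of the sets of the labels at which the eigenvalues are not
units, for the various extensions of the `p`-adic absolute value.
-/

set_option autoImplicit false
set_option linter.unusedSectionVars false

namespace Pool.Agent.W2helper27.GT

open Finset

section

variable {n : ℕ} {𝒞 : Set (Finset (Fin n ⊕ Fin n))}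

/-- The hypotheses on the sets of labels. -/
structure Types (𝒞 : Set (Finset (Fin n ⊕ Fin n))) : Prop where
  four : n ≤ 4
  half : ∀ N ∈ 𝒞, ∀ x, x ∈ N ↔ x.swap ∉ N
  compl : ∀ N ∈ 𝒞, Nᶜ ∈ 𝒞
  hom : Homog 𝒞
  ne : 𝒞.Nonempty

lemma swap_ne (x : Fin n ⊕ Fin n) : x.swap ≠ x := by
  rcases x with i | i <;> simp

/-- the trace of a set of labels on a section -/
def trace (σ : Fin n → Fin n ⊕ Fin n) (N : Finset (Fin n ⊕ Fin n)) : Finset (Fin n) :=
  Finset.univ.filter fun i => σ i ∈ N

/-- a section -/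
def IsSec (σ : Fin n → Fin n ⊕ Fin n) : Prop := ∀ i, σ i = Sum.inl i ∨ σ i = Sum.inr i

lemma IsSec.inj {σ : Fin n → Fin n ⊕ Fin n} (hσ : IsSec σ) : Function.Injective σ := by
  intro i j h
  rcases hσ i with h1 | h1 <;> rcases hσ j with h2 | h2 <;> rw [h1, h2] at h <;> simp at h <;>
    exact h

/-- every label is in the section or its conjugate is -/
lemma IsSec.mem {σ : Fin n → Fin n ⊕ Fin n} (hσ : IsSec σ) (x : Fin n ⊕ Fin n) :
    ∃ i, x = σ i ∨ x = (σ i).swap := by
  rcases x with i | i
  · refine ⟨i, ?_⟩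
    rcases hσ i with h | h <;> rw [h] <;> simp
  · refine ⟨i, ?_⟩
    rcases hσ i with h | h <;> rw [h] <;> simp

/-- the sum over the labels as a sum over the section -/
lemma IsSec.sum {σ : Fin n → Fin n ⊕ Fin n} (hσ : IsSec σ) (f : Fin n ⊕ Fin n → ℕ) :
    ∑ x, f x = ∑ i, (f (σ i) + f (σ i).swap) := by
  rw [Fintype.sum_sum_type, ← Finset.sum_add_distrib]
  refine Finset.sum_congr rfl fun i _ => ?_
  rcases hσ i with h | h <;> rw [h]
  · rfl
  · rw [Sum.swap_inr, add_comm]

lemma symm_card {σ : Fin n → Fin n ⊕ Fin n} (hσ : IsSec σ) (hC : Types 𝒞)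
    {N N' : Finset (Fin n ⊕ Fin n)} (hN : N ∈ 𝒞) (hN' : N' ∈ 𝒞) :
    (symmDiff N N').card = 2 * (symmDiff (trace σ N) (trace σ N')).card := by
  classical
  have h1 : (symmDiff N N').card = ∑ x, if x ∈ symmDiff N N' then 1 else 0 := by
    rw [Finset.sum_boole]
    simp
  have h2 : (symmDiff (trace σ N) (trace σ N')).card =
      ∑ i, if i ∈ symmDiff (trace σ N) (trace σ N') then 1 else 0 := by
    rw [Finset.sum_boole]
    simp
  rw [h1, h2, hσ.sum, Finset.mul_sum]
  refine Finset.sum_congr rfl fun i _ => ?_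
  have e1 := hC.half N hN (σ i)
  have e2 := hC.half N' hN' (σ i)
  simp only [Finset.mem_symmDiff, trace, Finset.mem_filter, Finset.mem_univ, true_and]
  by_cases a1 : σ i ∈ N <;> by_cases a2 : σ i ∈ N' <;>
    by_cases a3 : (σ i).swap ∈ N <;> by_cases a4 : (σ i).swap ∈ N' <;> simp_all

/-- The set of the traces. -/
def traces (σ : Fin n → Fin n ⊕ Fin n) (𝒞 : Set (Finset (Fin n ⊕ Fin n))) :
    Set (Finset (Fin n)) := trace σ '' 𝒞

lemma traces_compl {σ : Fin n → Fin n ⊕ Fin n} (hC : Types 𝒞) :
    ∀ D ∈ traces σ 𝒞, Dᶜ ∈ traces σ 𝒞 := by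
  rintro _ ⟨N, hN, rfl⟩
  refine ⟨Nᶜ, hC.compl N hN, ?_⟩
  ext i
  simp [trace]

lemma trace_inj {σ : Fin n → Fin n ⊕ Fin n} (hσ : IsSec σ) (hC : Types 𝒞)
    {N N' : Finset (Fin n ⊕ Fin n)} (hN : N ∈ 𝒞) (hN' : N' ∈ 𝒞) (h : trace σ N = trace σ N') :
    N = N' := by
  have h1 := symm_card hσ hC hN hN'
  rw [h, symmDiff_self, Finset.bot_eq_empty, Finset.card_empty, mul_zero, Finset.card_eq_zero] at h1
  exact symmDiff_eq_bot.1 h1

lemma traces_hom {σ : Fin n → Fin n ⊕ Fin n} (hσ : IsSec σ) (hC : Types 𝒞) :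
    Homog (traces σ 𝒞) := by
  classical
  rintro _ ⟨N, hN, rfl⟩ _ ⟨N', hN', rfl⟩
  obtain ⟨f, hf, hfN, hfd⟩ := hC.hom N hN N' hN'
  let g : Finset (Fin n) → Finset (Fin n) := fun D =>
    if h : ∃ E ∈ 𝒞, trace σ E = D then trace σ (f h.choose) else D
  have hg : ∀ E ∈ 𝒞, g (trace σ E) = trace σ (f E) := by
    intro E hE
    have h : ∃ E' ∈ 𝒞, trace σ E' = trace σ E := ⟨E, hE, rfl⟩
    have h1 : g (trace σ E) = trace σ (f h.choose) := dif_pos h
    rw [h1]
    have h2 := h.choose_spec
    rw [trace_inj hσ hC h2.1 hE h2.2]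
  refine ⟨g, ?_, ?_, ?_⟩
  · rintro _ ⟨E, hE, rfl⟩
    rw [hg E hE]
    exact ⟨f E, hf E hE, rfl⟩
  · rw [hg N hN, hfN]
  · rintro _ ⟨E, hE, rfl⟩ _ ⟨E', hE', rfl⟩
    rw [hg E hE, hg E' hE']
    have h1 := symm_card hσ hC (hf E hE) (hf E' hE')
    have h2 := symm_card hσ hC hE hE'
    have h3 := hfd E hE E' hE'
    omega

/-- Every nonempty family of labels contains a removable set of labels. -/
theorem exists_removable_labels (hC : Types 𝒞) {m : Fin n ⊕ Fin n → ℕ} {ν : ℕ}
    (hm : ∃ x, m x ≠ 0) (hν : ∀ N ∈ 𝒞, ν ≤ ∑ x ∈ N, m x) : ∃ T κ, Removable 𝒞 m ν T κ := by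
  classical
  by_cases hp : ∃ x, m x ≠ 0 ∧ m x.swap ≠ 0
  · obtain ⟨x, hx, hx'⟩ := hp
    refine ⟨{x, x.swap}, 1, ⟨x, by simp⟩, fun y hy => ?_, fun N hN => ?_⟩
    · rcases Finset.mem_insert.1 hy with rfl | hy
      · exact hx
      · rw [Finset.mem_singleton.1 hy]; exact hx'
    · have h1 : (({x, x.swap} : Finset (Fin n ⊕ Fin n)) ∩ N).card = 1 := by
        by_cases hxN : x ∈ N
        · rw [Finset.insert_inter_of_mem hxN,
            Finset.singleton_inter_of_notMem ((hC.half N hN x).1 hxN)]
          simp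
        · have h2 : x.swap ∈ N := by
            rw [hC.half N hN, Sum.swap_swap]
            exact hxN
          rw [Finset.insert_inter_of_notMem hxN, Finset.singleton_inter_of_mem h2]
          simp
      rw [h1]
      exact ⟨le_rfl, by have := hν N hN; omega⟩
  · push Not at hp
    let σ : Fin n → Fin n ⊕ Fin n := fun i => if m (Sum.inl i) ≠ 0 then Sum.inl i else Sum.inr i
    have hσ : IsSec σ := by
      intro i
      by_cases h : m (Sum.inl i) ≠ 0
      · exact Or.inl (if_pos h)
      · exact Or.inr (if_neg h)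
    have hσ0 : ∀ i, m (σ i).swap = 0 := by
      intro i
      by_cases h : m (Sum.inl i) ≠ 0
      · have : σ i = Sum.inl i := if_pos h
        rw [this]
        exact hp _ h
      · have : σ i = Sum.inr i := if_neg h
        rw [this, Sum.swap_inr]
        push Not at h
        exact h
    have hsum : ∀ N ∈ 𝒞, ∑ x ∈ N, m x = ∑ i ∈ trace σ N, m (σ i) := by
      intro N hN
      have h1 : ∑ x ∈ N, m x = ∑ x, if x ∈ N then m x else 0 := by
        rw [← Finset.sum_filter]
        refine Finset.sum_congr ?_ fun _ _ => rfl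
        ext x; simp
      rw [h1, hσ.sum, trace, Finset.sum_filter]
      refine Finset.sum_congr rfl fun i _ => ?_
      rw [hσ0]
      simp
    obtain ⟨T, κ, ⟨i0, hi0⟩, hT, hD⟩ := exists_removable (𝒟 := traces σ 𝒞) (y := fun i => m (σ i))
      (ν := ν) (by rw [Fintype.card_fin]; exact hC.four) (traces_compl hC) (traces_hom hσ hC) (by
        obtain ⟨x, hx⟩ := hm
        obtain ⟨i, h1 | h1⟩ := hσ.mem x
        · exact ⟨i, h1 ▸ hx⟩
        · exact absurd (hσ0 i) (h1 ▸ hx)) (by
        rintro _ ⟨N, hN, rfl⟩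
        rw [← hsum N hN]
        exact hν N hN)
    refine ⟨T.image σ, κ, ⟨σ i0, Finset.mem_image_of_mem σ hi0⟩, fun x hx => ?_, fun N hN => ?_⟩
    · obtain ⟨i, hi, rfl⟩ := Finset.mem_image.1 hx
      exact hT i hi
    · have h1 : (T.image σ ∩ N).card = (T ∩ trace σ N).card := by
        have h2 : T.image σ ∩ N = (T ∩ trace σ N).image σ := by
          ext x
          simp only [Finset.mem_inter, Finset.mem_image, trace, Finset.mem_filter,
            Finset.mem_univ, true_and]
          constructor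
          · rintro ⟨⟨i, hi, rfl⟩, h3⟩
            exact ⟨i, ⟨hi, h3⟩, rfl⟩
          · rintro ⟨i, ⟨hi, h3⟩, rfl⟩
            exact ⟨⟨i, hi, rfl⟩, h3⟩
        rw [h2, Finset.card_image_of_injective _ hσ.inj]
      rw [h1, hsum N hN]
      exact hD _ ⟨N, hN, rfl⟩

/-- Partition of a family of labels into families of different labels. -/
theorem exists_partition (hC : Types 𝒞) {κ : Type} [DecidableEq κ] (z : κ → Fin n ⊕ Fin n) :
    ∀ (S : Finset κ) (ν : ℕ), (∀ N ∈ 𝒞, ν ≤ (S.filter fun k => z k ∈ N).card) →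
      ∃ (r : ℕ) (b : κ → ℕ) (m : ℕ → ℕ), (∀ k ∈ S, b k < r) ∧ ν ≤ ∑ s ∈ Finset.range r, m s ∧
        (∀ k ∈ S, ∀ k' ∈ S, b k = b k' → z k = z k' → k = k') ∧
        ∀ s < r, ∀ N ∈ 𝒞, m s ≤ (S.filter fun k => b k = s ∧ z k ∈ N).card := by
  classical
  intro S
  induction S using Finset.strongInduction with
  | H S ih =>
    intro ν hν
    rcases S.eq_empty_or_nonempty with rfl | ⟨k0, hk0⟩
    · obtain ⟨N, hN⟩ := hC.ne
      have h1 := hν N hN
      rw [Finset.filter_empty, Finset.card_empty] at h1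
      exact ⟨0, fun _ => 0, fun _ => 0, by simp, by simpa using h1, by simp, by simp⟩
    · let m : Fin n ⊕ Fin n → ℕ := fun x => (S.filter fun k => z k = x).card
      have hsum : ∀ N : Finset (Fin n ⊕ Fin n), ∑ x ∈ N, m x =
          (S.filter fun k => z k ∈ N).card := by
        intro N
        have h0 := Finset.card_eq_sum_card_fiberwise (f := z) (s := S.filter fun k => z k ∈ N)
          (t := N) (fun k hk => (Finset.mem_filter.1 (Finset.mem_coe.1 hk)).2)
        rw [h0]
        refine Finset.sum_congr rfl fun x hx => ?_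
        have h5 : (S.filter fun k => z k = x) =
            ((S.filter fun k => z k ∈ N).filter fun k => z k = x) := by
          ext k
          simp only [Finset.mem_filter]
          constructor
          · rintro ⟨h1, h2⟩
            exact ⟨⟨h1, h2 ▸ hx⟩, h2⟩
          · rintro ⟨⟨h1, -⟩, h2⟩
            exact ⟨h1, h2⟩
        exact congrArg Finset.card h5
      have hm0 : m (z k0) ≠ 0 := by
        have : k0 ∈ S.filter fun k => z k = z k0 := Finset.mem_filter.2 ⟨hk0, rfl⟩
        exact (Finset.card_pos.2 ⟨k0, this⟩).ne'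
      obtain ⟨T, c, ⟨x0, hx0⟩, hT, hD⟩ := exists_removable_labels hC (m := m) (ν := ν)
        ⟨z k0, hm0⟩ (by
          intro N hN
          rw [hsum]
          exact hν N hN)
      have hex : ∀ x ∈ T, ∃ k ∈ S, z k = x := by
        intro x hx
        obtain ⟨k, hk⟩ := Finset.card_pos.1 (Nat.pos_of_ne_zero (hT x hx))
        exact ⟨k, (Finset.mem_filter.1 hk).1, (Finset.mem_filter.1 hk).2⟩
      let g : Fin n ⊕ Fin n → κ := fun x => if h : ∃ k ∈ S, z k = x then h.choose else k0
      have hg : ∀ x ∈ T, g x ∈ S ∧ z (g x) = x := by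
        intro x hx
        have h := hex x hx
        have h1 : g x = h.choose := dif_pos h
        rw [h1]
        exact h.choose_spec
      let B := T.image g
      have hBS : B ⊆ S := by
        intro k hk
        obtain ⟨x, hx, rfl⟩ := Finset.mem_image.1 hk
        exact (hg x hx).1
      have hzB : ∀ k ∈ B, ∀ k' ∈ B, z k = z k' → k = k' := by
        intro k hk k' hk' h
        obtain ⟨x, hx, rfl⟩ := Finset.mem_image.1 hk
        obtain ⟨x', hx', rfl⟩ := Finset.mem_image.1 hk'
        rw [(hg x hx).2, (hg x' hx').2] at h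
        rw [h]
      have hBN : ∀ N : Finset (Fin n ⊕ Fin n), (B.filter fun k => z k ∈ N).card =
          (T ∩ N).card := by
        intro N
        have h1 : B.filter (fun k => z k ∈ N) = (T ∩ N).image g := by
          ext k
          simp only [Finset.mem_filter, Finset.mem_image, Finset.mem_inter, B]
          constructor
          · rintro ⟨⟨x, hx, rfl⟩, h2⟩
            rw [(hg x hx).2] at h2
            exact ⟨x, ⟨hx, h2⟩, rfl⟩
          · rintro ⟨x, ⟨hx, h2⟩, rfl⟩
            refine ⟨⟨x, hx, rfl⟩, ?_⟩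
            rw [(hg x hx).2]
            exact h2
        rw [h1, Finset.card_image_of_injOn]
        intro x hx x' hx' h
        have h2 := (hg x (Finset.mem_inter.1 hx).1).2
        have h3 := (hg x' (Finset.mem_inter.1 hx').1).2
        have h4 : g x = g x' := h
        rw [← h2, ← h3, h4]
      have hS' : S \ B ⊂ S := by
        refine ⟨Finset.sdiff_subset, fun h => ?_⟩
        have h1 : g x0 ∈ B := Finset.mem_image_of_mem g hx0
        exact (Finset.mem_sdiff.1 (h (hBS h1))).2 h1
      have hcard : ∀ N : Finset (Fin n ⊕ Fin n), (S.filter fun k => z k ∈ N).card =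
          (B.filter fun k => z k ∈ N).card + ((S \ B).filter fun k => z k ∈ N).card := by
        intro N
        rw [← Finset.card_union_of_disjoint]
        · congr 1
          ext k
          simp only [Finset.mem_filter, Finset.mem_union, Finset.mem_sdiff]
          constructor
          · rintro ⟨h1, h2⟩
            by_cases h3 : k ∈ B
            · exact Or.inl ⟨h3, h2⟩
            · exact Or.inr ⟨⟨h1, h3⟩, h2⟩
          · rintro (⟨h1, h2⟩ | ⟨⟨h1, -⟩, h2⟩)
            · exact ⟨hBS h1, h2⟩
            · exact ⟨h1, h2⟩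
        · rw [Finset.disjoint_left]
          intro k hk hk'
          exact (Finset.mem_sdiff.1 (Finset.mem_filter.1 hk').1).2 (Finset.mem_filter.1 hk).1
      obtain ⟨r, b, m', h1, h2, h3, h4⟩ := ih _ hS' (ν - c) (by
        intro N hN
        have e1 := (hD N hN).2
        have e2 := hcard N
        rw [hsum N, e2, hBN] at e1
        omega)
      refine ⟨r + 1, fun k => if k ∈ B then r else b k, fun s => if s = r then c else m' s,
        ?_, ?_, ?_, ?_⟩
      · intro k hk
        dsimp only
        split_ifs with h5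
        · exact Nat.lt_succ_self r
        · exact Nat.lt_succ_of_lt (h1 k (Finset.mem_sdiff.2 ⟨hk, h5⟩))
      · rw [Finset.sum_range_succ, if_pos rfl]
        have h5 : ∑ s ∈ Finset.range r, (if s = r then c else m' s) =
            ∑ s ∈ Finset.range r, m' s := by
          refine Finset.sum_congr rfl fun s hs => ?_
          rw [if_neg (Finset.mem_range.1 hs).ne]
        rw [h5]
        omega
      · intro k hk k' hk' hb hz
        dsimp only at hb
        split_ifs at hb with h5 h6 h6
        · exact hzB k h5 k' h6 hz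
        · exact absurd hb (h1 k' (Finset.mem_sdiff.2 ⟨hk', h6⟩)).ne'
        · exact absurd hb (h1 k (Finset.mem_sdiff.2 ⟨hk, h5⟩)).ne
        · exact h3 k (Finset.mem_sdiff.2 ⟨hk, h5⟩) k' (Finset.mem_sdiff.2 ⟨hk', h6⟩) hb hz
      · intro s hs N hN
        dsimp only
        by_cases hsr : s = r
        · subst hsr
          rw [if_pos rfl]
          refine le_trans (hD N hN).1 ?_
          rw [← hBN]
          refine Finset.card_le_card fun k hk => ?_
          obtain ⟨h5, h6⟩ := Finset.mem_filter.1 hk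
          exact Finset.mem_filter.2 ⟨hBS h5, if_pos h5, h6⟩
        · rw [if_neg hsr]
          refine le_trans (h4 s (by omega) N hN) ?_
          refine Finset.card_le_card fun k hk => ?_
          obtain ⟨h5, h6, h7⟩ := Finset.mem_filter.1 hk
          obtain ⟨h8, h9⟩ := Finset.mem_sdiff.1 h5
          exact Finset.mem_filter.2 ⟨h8, by rw [if_neg h9]; exact h6, h7⟩

end

end Pool.Agent.W2helper27.GT
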